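import Pool.Agent.H86.CMLib.W547.KB.Canon

/-!
# Cancellation of pairs
-/

set_option linter.unusedSectionVars false
set_option linter.unusedVariables false

namespace Pool.Agent.W547.KB

open NumberField Pool.Agent.H204R3.CM Equiv Module

noncomputable section

variable {B : CMPair} {L : Type} [Field L] [NumberField L] [IsCMField L] [IsGalois ℚ L]
  {κ κ' : Type} [Fintype κ] [DecidableEq κ] [Fintype κ'] [DecidableEq κ']

/-- The determinant of the conjugates of a basis. -/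
theorem det_conj_ne [DecidableEq (L ≃ₐ[ℚ] L)] (b : Basis (L ≃ₐ[ℚ] L) ℚ L) :
    Matrix.det (Matrix.of fun τ σ : L ≃ₐ[ℚ] L => σ (b τ)) ≠ 0 := by
  intro h
  obtain ⟨v, hv, hv2⟩ := Matrix.exists_mulVec_eq_zero_iff.2 h
  apply hv
  have h1 : ∀ x : L, ∑ σ : L ≃ₐ[ℚ] L, v σ * σ x = 0 := by
    intro x
    have h2 : x ∈ Submodule.span ℚ (Set.range b) := by
      rw [b.span_eq]
      trivial
    induction h2 using Submodule.span_induction with
    | mem x hx =>
      obtain ⟨τ, rfl⟩ := hx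
      have h3 := congrFun hv2 τ
      simp only [Matrix.mulVec, dotProduct, Matrix.of_apply, Pi.zero_apply] at h3
      rw [← h3]
      exact Finset.sum_congr rfl fun σ _ => mul_comm _ _
    | zero => simp
    | add x y _ _ hx hy =>
      simp only [map_add, mul_add, Finset.sum_add_distrib, hx, hy, add_zero]
    | smul c x _ hx =>
      have h3 : ∀ σ : L ≃ₐ[ℚ] L, v σ * σ (c • x) = (c : L) * (v σ * σ x) := by
        intro σ
        rw [Rat.smul_def, map_mul, map_ratCast]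
        ring
      rw [Finset.sum_congr rfl (fun σ _ => h3 σ), ← Finset.mul_sum, hx, mul_zero]
  have h2 := linearIndependent_monoidHom L L
  have h3 : LinearIndependent L (fun σ : L ≃ₐ[ℚ] L => fun x : L => σ x) := by
    have h4 : Function.Injective (fun σ : L ≃ₐ[ℚ] L => ((σ : L →+* L) : L →* L)) := by
      intro σ τ hh
      ext x
      exact DFunLike.congr_fun hh x
    exact h2.comp _ h4
  rw [Fintype.linearIndependent_iff] at h3
  funext σ
  refine h3 v ?_ σ
  funext x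
  rw [Finset.sum_apply]
  exact h1 x

theorem mem_q (j : L →+* ℂ) (S : Set (L ≃ₐ[ℚ] L)) (τ σ : L ≃ₐ[ℚ] L) :
    j.comp (τ • (σ : L →+* L)) ∈ typeOf j S ↔ τ * σ ∈ S :=
  mem_typeOf j S (τ * σ)

theorem alg_cancel (j : L →+* ℂ) {s : κ → Set (L ≃ₐ[ℚ] L)} (hs : ∀ k, IsHalf (s k))
    {S : Set (L ≃ₐ[ℚ] L)} (hS : IsHalf S) (h : Alg B j (Sum.elim s ![S, Sᶜ])) : Alg B j s := by
  classical
  let q : (L ≃ₐ[ℚ] L) → Set (L ≃ₐ[ℚ] L) := fun σ => {τ | τ * σ ∈ S}
  have hq : ∀ σ, q (cc L * σ) = (q σ)ᶜ := by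
    intro σ
    ext τ
    have h1 : τ * (cc L * σ) = cc L * (τ * σ) := by
      rw [← mul_assoc, ← mul_assoc, cc_comm j]
    change τ * (cc L * σ) ∈ S ↔ ¬ (τ * σ ∈ S)
    rw [h1, hS (τ * σ), not_not]
  have hq1 : q 1 = S := by
    ext τ
    change τ * 1 ∈ S ↔ _
    rw [mul_one]
  have hqc : q (cc L) = Sᶜ := by
    rw [← hq1, ← hq 1, mul_one]
  have hne : (1 : L ≃ₐ[ℚ] L) ≠ cc L := fun h => cc_ne h.symm
  -- the other weights of the factor
  have h1 : Alg B j (fun σ : {σ : L ≃ₐ[ℚ] L // σ ≠ 1 ∧ σ ≠ cc L} => q σ.1) := by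
    refine alg_pairs j _ _ rfl _ (fun σ => ⟨cc L * σ.1, fun h => σ.2.2 ?_, fun h => σ.2.1 ?_⟩)
      ?_ ?_ ?_
    · exact mul_left_cancel (a := cc L) (h.trans cc_cc.symm)
    · exact mul_left_cancel (a := cc L) (by rw [h, mul_one])
    · intro σ
      refine Subtype.ext ?_
      change cc L * (cc L * σ.1) = σ.1
      rw [← mul_assoc, cc_cc, one_mul]
    · intro σ h
      have h2 : cc L * σ.1 = σ.1 := congrArg Subtype.val h
      exact cc_ne (mul_right_cancel (b := σ.1) (by rw [h2, one_mul]))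
    · intro σ
      exact hq σ.1
  have h2 : Alg B j (Sum.elim s q) := by
    refine alg_reindex (((Equiv.sumAssoc κ (Fin 2) _).trans (Equiv.sumCongr (Equiv.refl κ)
      ((Equiv.sumComm _ _).trans (splitTwo 1 (cc L) hne))))) (alg_sum h h1) ?_
    rintro ((k | k) | x)
    · rfl
    · fin_cases k
      · exact hq1
      · exact hqc
    · rfl
  -- the variety
  refine alg_of_can j s hs ?_
  let X : CMAV := can j s hs
  let Y : CMAV := ⟨Unit, fun _ => ⟨L, typeOf j S, isCMType_typeOf j hS⟩⟩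
  let I : κ ⊕ (L ≃ₐ[ℚ] L) → Wt (X.prod Y) L :=
    Sum.elim (fun k => ⟨Sum.inl k, RingHom.id L⟩) (fun σ => ⟨Sum.inr (), (σ : L →+* L)⟩)
  have hI : ∀ k, St j (I k) = Sum.elim s q k := by
    rintro (k | σ)
    · ext τ
      exact mem_typeOf j (s k) τ
    · ext τ
      exact mem_q j S τ σ
  have h3 := h2 (X.prod Y) I hI
  have hcard : Fintype.card (Fin (finrank ℚ L)) = Fintype.card (L ≃ₐ[ℚ] L) := by
    rw [Fintype.card_fin, ← Nat.card_eq_fintype_card, IsGalois.card_aut_eq_finrank]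
  let b0 : Basis (L ≃ₐ[ℚ] L) ℚ L := (Module.finBasis ℚ L).reindex (Fintype.equivOfCardEq hcard)
  let eY : L ≃ₗ[ℚ] Y.H1 := (LinearEquiv.funUnique Unit ℚ L).symm
  have h4 := LSp.push (b0.map eY) h3
  let D : L := Matrix.det (Matrix.of fun τ σ : L ≃ₐ[ℚ] L => σ (b0 τ))
  have hD : D ≠ 0 := det_conj_ne b0
  have h5 : (fun v : κ → X.H1 => mono I (Sum.elim (fun k => X.pair Y (v k) 0)
      (fun k => X.pair Y 0 ((b0.map eY) k)))) = D • mono (canI j s hs) := by
    funext v
    rw [Pi.smul_apply, smul_eq_mul, mono_eq_det, mono_eq_det]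
    have h6 : (Matrix.of fun k l => ev ((Sum.elim (fun k => X.pair Y (v k) 0)
      (fun k => X.pair Y 0 ((b0.map eY) k)) : κ ⊕ (L ≃ₐ[ℚ] L) → (X.prod Y).H1) k) (I l)) =
        Matrix.fromBlocks (Matrix.of fun k l => ev (v k) (canI j s hs l)) 0 0
          (Matrix.of fun τ σ : L ≃ₐ[ℚ] L => σ (b0 τ)) := by
      ext k l
      rcases k with k | τ <;> rcases l with l | σ
      · rfl
      · exact map_zero (σ : L →+* L)
      · exact map_zero (RingHom.id L)
      · rfl
    rw [h6, Matrix.det_fromBlocks_zero₂₁, mul_comm]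
  rw [h5] at h4
  have h7 := Submodule.smul_mem _ D⁻¹ h4
  rwa [smul_smul, inv_mul_cancel₀ hD, one_smul] at h7

end

end Pool.Agent.W547.KB
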