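import Pool.Agent.H86.CMLib.W547.KB.Hodge

/-!
# Abelian varieties with given weights, and the cancellation of pairs
-/

set_option linter.unusedSectionVars false
set_option linter.unusedVariables false

namespace Pool.Agent.W547.KB

open NumberField Pool.Agent.H204R3.CM Equiv Module

noncomputable section

section basic

variable {B : CMPair} {L : Type} [Field L] [NumberField L] [IsCMField L] [IsGalois ℚ L]

/-- The complex conjugation of a Galois CM field. -/
def cc (L : Type) [Field L] [NumberField L] [IsCMField L] : L ≃ₐ[ℚ] L :=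
  (IsCMField.complexConj L).restrictScalars ℚ

theorem cc_apply (x : L) : cc L x = IsCMField.complexConj L x := rfl

theorem emb_cc (φ : L →+* ℂ) (x : L) : φ (cc L x) = starRingEnd ℂ (φ x) :=
  IsCMField.complexEmbedding_complexConj L φ x

theorem cc_cc : cc L * cc L = 1 := by
  ext x
  exact IsCMField.complexConj_apply_apply L x

theorem cc_ne : cc L ≠ 1 := by
  intro h
  apply IsCMField.complexConj_ne_one L
  ext x
  exact DFunLike.congr_fun h x

theorem cc_comm (j : L →+* ℂ) (σ : L ≃ₐ[ℚ] L) : cc L * σ = σ * cc L := by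
  ext x
  apply j.injective
  change j (cc L (σ x)) = j (σ (cc L x))
  rw [emb_cc]
  exact (emb_cc (j.comp (σ : L →+* L)) x).symm

theorem comp_cc (j : L →+* ℂ) (σ : L ≃ₐ[ℚ] L) :
    j.comp ((cc L * σ : L ≃ₐ[ℚ] L) : L →+* L) =
      ComplexEmbedding.conjugate (j.comp (σ : L →+* L)) := by
  ext x
  change j (cc L (σ x)) = _
  rw [emb_cc, ComplexEmbedding.conjugate_coe_eq]
  rfl

theorem comp_injective (j : L →+* ℂ) :
    Function.Injective (fun σ : L ≃ₐ[ℚ] L => j.comp (σ : L →+* L)) := by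
  intro σ τ h
  ext x
  exact j.injective (RingHom.congr_fun h x)

theorem comp_surjective (j : L →+* ℂ) :
    Function.Surjective (fun σ : L ≃ₐ[ℚ] L => j.comp (σ : L →+* L)) := by
  classical
  have h : Function.Bijective (fun σ : L ≃ₐ[ℚ] L => j.comp (σ : L →+* L)) := by
    rw [Fintype.bijective_iff_injective_and_card]
    refine ⟨comp_injective j, ?_⟩
    rw [Embeddings.card, ← Nat.card_eq_fintype_card, IsGalois.card_aut_eq_finrank]
  exact h.2

/-- Exactly one of `σ` and `c σ` lies in the set. -/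
def IsHalf (S : Set (L ≃ₐ[ℚ] L)) : Prop := ∀ σ, σ ∈ S ↔ cc L * σ ∉ S

theorem IsHalf.compl {S : Set (L ≃ₐ[ℚ] L)} (hS : IsHalf S) : IsHalf Sᶜ := by
  intro σ
  rw [Set.mem_compl_iff, Set.mem_compl_iff, not_not, hS σ, not_not]

/-- The CM type belonging to a half system of automorphisms. -/
def typeOf (j : L →+* ℂ) (S : Set (L ≃ₐ[ℚ] L)) : Set (L →+* ℂ) :=
  (fun σ : L ≃ₐ[ℚ] L => j.comp (σ : L →+* L)) '' S

theorem mem_typeOf (j : L →+* ℂ) (S : Set (L ≃ₐ[ℚ] L)) (σ : L ≃ₐ[ℚ] L) :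
    j.comp (σ : L →+* L) ∈ typeOf j S ↔ σ ∈ S :=
  (comp_injective j).mem_set_image

theorem isCMType_typeOf (j : L →+* ℂ) {S : Set (L ≃ₐ[ℚ] L)} (hS : IsHalf S) :
    IsCMType (typeOf j S) := by
  intro φ
  obtain ⟨σ, rfl⟩ := comp_surjective j φ
  rw [← comp_cc, mem_typeOf, mem_typeOf]
  exact hS σ

theorem typeOf_inter (j : L →+* ℂ) (S T : Set (L ≃ₐ[ℚ] L)) :
    typeOf j S ∩ typeOf j T = typeOf j (S ∩ T) :=
  (Set.image_inter (comp_injective j)).symm

end basic

variable {B : CMPair} {L : Type} [Field L] [NumberField L] [IsCMField L] [IsGalois ℚ L]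
  {κ κ' : Type} [Fintype κ] [DecidableEq κ] [Fintype κ'] [DecidableEq κ']

/-- The abelian variety with the given weights. -/
abbrev can (j : L →+* ℂ) (s : κ → Set (L ≃ₐ[ℚ] L)) (hs : ∀ k, IsHalf (s k)) : CMAV :=
  ⟨κ, fun k => ⟨L, typeOf j (s k), isCMType_typeOf j (hs k)⟩⟩

/-- The weights of this variety. -/
def canI (j : L →+* ℂ) (s : κ → Set (L ≃ₐ[ℚ] L)) (hs : ∀ k, IsHalf (s k)) (k : κ) :
    Wt (can j s hs) L := ⟨k, RingHom.id L⟩

/-- All monomials with the given types are in the span of the generated classes. -/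
def Alg (B : CMPair) (j : L →+* ℂ) (s : κ → Set (L ≃ₐ[ℚ] L)) : Prop :=
  ∀ (X : CMAV) (I : κ → Wt X L), (∀ k, St j (I k) = s k) → mono I ∈ LSp B L X κ

theorem alg_of_can (j : L →+* ℂ) (s : κ → Set (L ≃ₐ[ℚ] L)) (hs : ∀ k, IsHalf (s k))
    (h : mono (canI j s hs) ∈ LSp B L (can j s hs) κ) : Alg B j s := by
  intro X I hI
  let hh : X.H1 →ₗ[ℚ] (can j s hs).H1 := LinearMap.pi (fun k => evLin (I k))
  have hmem : ∀ (k : κ) (ψ : L →+* ℂ), ψ ∈ typeOf j (s k) →
      ψ.comp (I k).2 ∈ (X.factor (I k).1).Φ := by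
    rintro k ψ ⟨σ, hσ, rfl⟩
    rw [← hI k] at hσ
    exact hσ
  let H : X.Tan →ₗ[ℂ] (can j s hs).Tan :=
    LinearMap.pi fun k => LinearMap.pi fun ψ =>
      (LinearMap.proj (⟨ψ.1.comp (I k).2, hmem k ψ.1 ψ.2⟩ : (X.factor (I k).1).Φ)).comp
        (LinearMap.proj (R := ℂ) (φ := fun i => (X.factor i).Φ → ℂ) (I k).1)
  have hom : IsHom X (can j s hs) hh := ⟨H, fun w => rfl⟩
  have h1 := LSp.pull hom h
  rwa [mono_pull hh I (canI j s hs) (fun w k => rfl)] at h1

theorem alg_reindex {j : L →+* ℂ} (e : κ ≃ κ') {s : κ → Set (L ≃ₐ[ℚ] L)}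
    {s' : κ' → Set (L ≃ₐ[ℚ] L)} (hs : Alg B j s) (h : ∀ k, s' (e k) = s k) : Alg B j s' := by
  intro X I hI
  have h1 := hs X (fun k => I (e k)) (fun k => by rw [hI, h])
  have h2 := LSp.reindex e h1
  rw [mono_reindex] at h2
  simpa using h2

theorem alg_sum {j : L →+* ℂ} {s : κ → Set (L ≃ₐ[ℚ] L)} {s' : κ' → Set (L ≃ₐ[ℚ] L)}
    (hs : Alg B j s) (hs' : Alg B j s') : Alg B j (Sum.elim s s') := by
  intro X I hI
  have h1 := hs X (fun k => I (Sum.inl k)) (fun k => hI (Sum.inl k))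
  have h2 := hs' X (fun k => I (Sum.inr k)) (fun k => hI (Sum.inr k))
  have h3 := LSp.cup h1 h2
  rw [mono_cup] at h3
  have h4 : (Fintype.card (Perm κ) : L) * (Fintype.card (Perm κ') : L) ≠ 0 := by
    rw [← Nat.cast_mul]
    exact Nat.cast_ne_zero.2 (Nat.mul_ne_zero Fintype.card_ne_zero Fintype.card_ne_zero)
  have h5 := Submodule.smul_mem _ (((Fintype.card (Perm κ) : L) * (Fintype.card (Perm κ') : L))⁻¹) h3
  rw [smul_smul, inv_mul_cancel₀ h4, one_smul] at h5
  have h6 : Sum.elim (fun k => I (Sum.inl k)) (fun k => I (Sum.inr k)) = I := by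
    funext s
    cases s <;> rfl
  rwa [h6] at h5

theorem alg_empty [IsEmpty κ] (j : L →+* ℂ) (s : κ → Set (L ≃ₐ[ℚ] L)) : Alg B j s :=
  fun X I hI => LSp.unit _

theorem alg_two (j : L →+* ℂ) (hκ : Nat.card κ = 2) {s : κ → Set (L ≃ₐ[ℚ] L)}
    (hs : Balanced s) : Alg B j s := by
  intro X I hI
  have h1 : (fun k => St j (I k)) = s := funext hI
  refine mono_mem_of_trForm I fun α => Gen.divisor hκ _ ?_
  exact isHodge_trForm j I (by rw [h1]; exact hs) α

theorem alg_pair (j : L →+* ℂ) (S : Set (L ≃ₐ[ℚ] L)) : Alg B j ![S, Sᶜ] := by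
  refine alg_two j (by simp) fun σ => ?_
  by_cases h : σ ∈ S <;> simp [Fin.sum_univ_two, h]

/-- Two elements of a finite set, and the others. -/
def splitTwo {κ : Type} [DecidableEq κ] (a b : κ) (hab : a ≠ b) :
    {x : κ // x ≠ a ∧ x ≠ b} ⊕ Fin 2 ≃ κ :=
  Equiv.ofBijective (Sum.elim (fun x => x.1) ![a, b]) (by
    constructor
    · rintro (⟨x, hx⟩ | x) (⟨y, hy⟩ | y) h
      · simp only [Sum.elim_inl] at h
        subst h
        rfl
      · exfalso
        fin_cases y
        · exact hx.1 h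
        · exact hx.2 h
      · exfalso
        fin_cases x
        · exact hy.1 h.symm
        · exact hy.2 h.symm
      · fin_cases x <;> fin_cases y
        · rfl
        · exact absurd h hab
        · exact absurd h.symm hab
        · rfl
    · intro x
      by_cases h1 : x = a
      · exact ⟨Sum.inr 0, h1.symm⟩
      · by_cases h2 : x = b
        · exact ⟨Sum.inr 1, h2.symm⟩
        · exact ⟨Sum.inl ⟨x, h1, h2⟩, rfl⟩)

theorem alg_split {j : L →+* ℂ} {s : κ → Set (L ≃ₐ[ℚ] L)} (a b : κ) (hab : a ≠ b)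
    (hs : s b = (s a)ᶜ) (h : Alg B j (fun x : {x : κ // x ≠ a ∧ x ≠ b} => s x.1)) : Alg B j s := by
  refine alg_reindex (splitTwo a b hab) (alg_sum h (alg_pair j (s a))) ?_
  rintro (x | x)
  · rfl
  · fin_cases x
    · rfl
    · exact hs

theorem card_split {κ : Type} [Fintype κ] [DecidableEq κ] (a b : κ) (hab : a ≠ b) :
    Fintype.card {x : κ // x ≠ a ∧ x ≠ b} + 2 = Fintype.card κ := by
  rw [← Fintype.card_congr (splitTwo a b hab), Fintype.card_sum, Fintype.card_fin]

/-- Unions of pairs. -/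
theorem alg_pairs (j : L →+* ℂ) (n : ℕ) : ∀ (κ : Type) [Fintype κ] [DecidableEq κ],
    Fintype.card κ = n → ∀ (s : κ → Set (L ≃ₐ[ℚ] L)) (inv : κ → κ), (∀ k, inv (inv k) = k) →
    (∀ k, inv k ≠ k) → (∀ k, s (inv k) = (s k)ᶜ) → Alg B j s := by
  induction n using Nat.strong_induction_on with
  | _ n ih =>
    intro κ _ _ hn s inv hinv hne hs
    rcases isEmpty_or_nonempty κ with h | ⟨⟨a⟩⟩
    · exact alg_empty j s
    · have hab : a ≠ inv a := (hne a).symm
      have hcard := card_split a (inv a) hab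
      refine alg_split a (inv a) hab (hs a) ?_
      refine ih _ (by omega) {x : κ // x ≠ a ∧ x ≠ inv a} rfl _
        (fun x => ⟨inv x.1, fun h => x.2.2 (by rw [← hinv x.1, h]),
          fun h => x.2.1 (by rw [← hinv x.1, h, hinv])⟩) ?_ ?_ ?_
      · intro x
        exact Subtype.ext (hinv x.1)
      · intro x h
        exact hne x.1 (congrArg Subtype.val h)
      · intro x
        exact hs x.1

end

end Pool.Agent.W547.KB
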