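import Pool.Agent.H86.CMLib.W547.KB.Uncross

/-!
# The common Galois closure of finitely many CM fields is a CM field
-/

set_option linter.unusedSectionVars false
set_option linter.unusedVariables false

namespace Pool.Agent.W547.KB

open NumberField Pool.Agent.H204R3.CM Equiv Module

noncomputable section

/-- Two homomorphisms from a field that is generated by the images of embeddings. -/
theorem eq_of_agree {ι : Type} (E : ι → Type) [∀ i, Field (E i)] [∀ i, NumberField (E i)]
    (L : IntermediateField ℚ (AlgebraicClosure ℚ))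
    (hL : L = ⨆ i, IntermediateField.normalClosure ℚ (E i) (AlgebraicClosure ℚ))
    (a b : L →+* ℂ) (hab : ∀ i, ∀ φ : E i →+* L, ∀ x, a (φ x) = b (φ x)) : a = b := by
  let A : L →ₐ[ℚ] ℂ := RingHom.equivRatAlgHom L ℂ a
  let B : L →ₐ[ℚ] ℂ := RingHom.equivRatAlgHom L ℂ b
  let S : IntermediateField ℚ L :=
    { AlgHom.equalizer A B with
      inv_mem' := fun x hx => by
        change A x⁻¹ = B x⁻¹
        have h : A x = B x := hx
        rw [map_inv₀, map_inv₀, h] }
  have h1 : L ≤ IntermediateField.lift S := by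
    conv_lhs => rw [hL]
    refine iSup_le fun i => ?_
    refine iSup_le fun f => ?_
    rintro y ⟨x, rfl⟩
    have hle : f.fieldRange ≤ L := by
      rw [hL]
      exact (AlgHom.fieldRange_le_normalClosure f).trans
        (le_iSup (fun i => IntermediateField.normalClosure ℚ (E i) (AlgebraicClosure ℚ)) i)
    let φL : E i →+* L :=
      { toFun := fun x => ⟨f x, hle ⟨x, rfl⟩⟩
        map_one' := Subtype.ext (map_one f)
        map_mul' := fun a b => Subtype.ext (map_mul f a b)
        map_zero' := Subtype.ext (map_zero f)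
        map_add' := fun a b => Subtype.ext (map_add f a b) }
    have h2 : φL x ∈ S := hab i φL x
    exact ⟨φL x, h2, rfl⟩
  ext x
  obtain ⟨y, hy, hxy⟩ := h1 x.2
  have h2 : y = x := Subtype.ext hxy
  rw [← h2]
  exact hy

theorem exists_cm (X : CMAV) [Nonempty X.I] :
    ∃ (L : Type) (_ : Field L) (_ : NumberField L) (_ : IsCMField L) (_ : IsGalois ℚ L)
      (j : L →+* ℂ), ∀ i, ∀ ψ : (X.factor i).E →+* ℂ,
        ∃ φ : (X.factor i).E →+* L, j.comp φ = ψ := by
  classical
  have _ : Algebra.IsAlgebraic ℚ (AlgebraicClosure ℚ) := AlgebraicClosure.isAlgebraic ℚ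
  have _ : IsAlgClosure ℚ (AlgebraicClosure ℚ) := ⟨inferInstance, inferInstance⟩
  have _ : Normal ℚ (AlgebraicClosure ℚ) := IsAlgClosure.normal ℚ (AlgebraicClosure ℚ)
  let j0 : (AlgebraicClosure ℚ) →ₐ[ℚ] ℂ := IsAlgClosed.lift
  let L : IntermediateField ℚ (AlgebraicClosure ℚ) :=
    ⨆ i, IntermediateField.normalClosure ℚ (X.factor i).E (AlgebraicClosure ℚ)
  have hFD : FiniteDimensional ℚ L := IntermediateField.finiteDimensional_iSup_of_finite
  have _ : Normal ℚ L := IntermediateField.normal_iSup
    (h := fun i => normalClosure.normal ℚ (X.factor i).E (AlgebraicClosure ℚ))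
  have hNF : NumberField L := NumberField.mk
  have hG : IsGalois ℚ L := ⟨⟩
  let j : L →+* ℂ := (j0 : (AlgebraicClosure ℚ) →+* ℂ).comp (algebraMap L (AlgebraicClosure ℚ))
  have hj : ∀ i, ∀ ψ : (X.factor i).E →+* ℂ, ∃ φ : (X.factor i).E →+* L, j.comp φ = ψ := by
    intro i ψ
    have hinj : Function.Injective (fun φ : (X.factor i).E →+* (AlgebraicClosure ℚ) =>
        (j0 : (AlgebraicClosure ℚ) →+* ℂ).comp φ) := by
      intro φ φ' h
      ext x
      exact j0.injective (RingHom.congr_fun h x)
    have hbij : Function.Bijective (fun φ : (X.factor i).E →+* (AlgebraicClosure ℚ) =>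
        (j0 : (AlgebraicClosure ℚ) →+* ℂ).comp φ) := by
      rw [Fintype.bijective_iff_injective_and_card]
      exact ⟨hinj, by rw [Embeddings.card, Embeddings.card]⟩
    obtain ⟨φ, hφ⟩ := hbij.2 ψ
    let φ' : (X.factor i).E →ₐ[ℚ] (AlgebraicClosure ℚ) :=
      RingHom.equivRatAlgHom (X.factor i).E (AlgebraicClosure ℚ) φ
    have hle : φ'.fieldRange ≤ L :=
      (AlgHom.fieldRange_le_normalClosure φ').trans
        (le_iSup (fun i => IntermediateField.normalClosure ℚ (X.factor i).E
          (AlgebraicClosure ℚ)) i)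
    let φL : (X.factor i).E →+* L :=
      { toFun := fun x => ⟨φ x, hle ⟨x, rfl⟩⟩
        map_one' := Subtype.ext (map_one φ)
        map_mul' := fun a b => Subtype.ext (map_mul φ a b)
        map_zero' := Subtype.ext (map_zero φ)
        map_add' := fun a b => Subtype.ext (map_add φ a b) }
    refine ⟨φL, ?_⟩
    rw [← hφ]
    rfl
  -- complex conjugation
  have hconj : ∀ (ψ : L →+* ℂ) (i : X.I) (φ : (X.factor i).E →+* L) (x : (X.factor i).E),
      ComplexEmbedding.conjugate ψ (φ x) = ψ (φ (IsCMField.complexConj (X.factor i).E x)) := by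
    intro ψ i φ x
    have h := RingHom.congr_fun (comp_cbar ψ φ) x
    rw [ComplexEmbedding.conjugate_coe_eq] at h ⊢
    exact h.symm
  obtain ⟨σ, hσ⟩ : ∃ σ : L ≃ₐ[ℚ] L, j.comp (σ : L →+* L) = ComplexEmbedding.conjugate j := by
    have h : Function.Bijective (fun σ : L ≃ₐ[ℚ] L => j.comp (σ : L →+* L)) := by
      rw [Fintype.bijective_iff_injective_and_card]
      refine ⟨?_, ?_⟩
      · intro σ τ h
        ext1 x
        exact j.injective (RingHom.congr_fun h x)
      · rw [Embeddings.card, ← Nat.card_eq_fintype_card, IsGalois.card_aut_eq_finrank]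
    exact h.2 _
  have hσ' : ∀ (i : X.I) (φ : (X.factor i).E →+* L) (x : (X.factor i).E),
      σ (φ x) = φ (IsCMField.complexConj (X.factor i).E x) := by
    intro i φ x
    apply j.injective
    rw [← hconj j i φ x, ← hσ]
    rfl
  have hall : ∀ ψ : L →+* ℂ, ComplexEmbedding.IsConj ψ σ := by
    intro ψ
    refine eq_of_agree (fun i => (X.factor i).E) L rfl _ _ fun i φ x => ?_
    rw [hconj ψ i φ x]
    change _ = ψ (σ (φ x))
    rw [hσ' i φ x]
  have htc : IsTotallyComplex L := by
    refine ⟨fun w => ?_⟩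
    rw [InfinitePlace.isComplex_iff]
    intro hreal
    obtain ⟨i⟩ := ‹Nonempty X.I›
    obtain ⟨φ, -⟩ := hj i (Classical.choice inferInstance)
    apply IsCMField.complexConj_ne_one (X.factor i).E
    ext x
    apply φ.injective
    apply w.embedding.injective
    rw [← hconj w.embedding i φ x]
    have h := RingHom.congr_fun hreal (φ x)
    exact h
  exact ⟨L, inferInstance, hNF, IsCMField.of_forall_isConj L hall, hG, j, hj⟩

end

end Pool.Agent.W547.KB
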