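import Pool.Agent.H86.CMLib.W547.KB.Closure
import Pool.Agent.H86.CMLib.H204R3.CM.Coef

/-!
# All Hodge classes on abelian varieties of CM type
-/

set_option linter.unusedSectionVars false
set_option linter.unusedVariables false

namespace Pool.Agent.W547.KB

open NumberField Pool.Agent.H204R3.CM Equiv Module

noncomputable section

theorem gen_of_hodge (B : CMPair) (X : CMAV) {κ : Type} [Finite κ] (f : X.H1 [⋀^κ]→ₗ[ℚ] ℚ)
    (hf : IsHodge X.per f) : Gen B X κ f := by
  classical
  have := Fintype.ofFinite κ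
  rcases isEmpty_or_nonempty κ with hκ | ⟨⟨k0⟩⟩
  · exact Gen.unit f
  rcases isEmpty_or_nonempty X.I with hI | hI
  · have h1 : f = 0 := by
      ext v
      have h2 : v k0 = 0 := by
        funext i
        exact (hI.false i).elim
      rw [f.map_coord_zero k0 h2]
      rfl
    rw [h1]
    exact Gen.zero X κ
  obtain ⟨L, _, _, _, _, j, hj'⟩ := exists_cm (X.prod (single B))
  have hj : ∀ i, ∀ ψ : (X.factor i).E →+* ℂ, ∃ φ : (X.factor i).E →+* L, j.comp φ = ψ :=
    fun i => hj' (Sum.inl i)
  obtain ⟨ι, -⟩ := hj' (Sum.inr ()) (Classical.choice inferInstance)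
  apply gen_of_LSp (L := L)
  obtain ⟨c, hc⟩ := form_coeff (E := fun i : X.I => (X.factor i).E) (fun i : X.I => i) j hj
    f.toMultilinearMap
  have hmono : ∀ I : κ → Wt X L, c I ≠ 0 → mono I ∈ LSp B L X κ := by
    intro I hI
    have h1 : Balanced (fun k => St j (I k)) := by
      intro σ
      have h2 := balanced_of_hodge (E := fun i : X.I => (X.factor i).E)
        (Φ := fun i : X.I => (X.factor i).Φ) (fun i : X.I => i) j
        (fun i => (X.factor i).isCMType) hj f hf c hc I hI σ
      exact h2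
    exact alg_of_balanced ι j _ κ rfl (fun k => St j (I k)) (fun k => isHalf_St j (I k)) h1 X I
      (fun k => rfl)
  have hsum : ((Fintype.card (Perm κ) : ℕ) : L) • (fun v : κ → X.H1 => ((f v : ℚ) : L)) =
      ∑ I : κ → Wt X L, c I • mono I := by
    funext v
    rw [Finset.sum_apply, Pi.smul_apply, smul_eq_mul]
    have h1 : ∀ σ : Perm κ, ((f v : ℚ) : L) = ((Perm.sign σ : ℤ) : L) *
        ∑ I : κ → Wt X L, c I * ∏ k, ev (v (σ k)) (I k) := by
      intro σ
      have h2 : ((f (fun k => v (σ k)) : ℚ) : L) =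
          ∑ I : κ → Wt X L, c I * ∏ k, ev (v (σ k)) (I k) := hc (fun k => v (σ k))
      rw [← h2]
      have h3 : f (fun k => v (σ k)) = Perm.sign σ • f v := f.map_perm v σ
      rw [h3, Units.smul_def, zsmul_eq_mul, Rat.cast_mul, Rat.cast_intCast, ← mul_assoc,
        ← Int.cast_mul, ← Units.val_mul, Int.units_mul_self, Units.val_one, Int.cast_one, one_mul]
    have h4 : ((Fintype.card (Perm κ) : ℕ) : L) * ((f v : ℚ) : L) =
        ∑ σ : Perm κ, ((Perm.sign σ : ℤ) : L) *
          ∑ I : κ → Wt X L, c I * ∏ k, ev (v (σ k)) (I k) := by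
      rw [← Finset.sum_congr rfl (fun σ _ => h1 σ), Finset.sum_const, Finset.card_univ,
        nsmul_eq_mul]
    rw [h4]
    simp only [Finset.mul_sum]
    rw [Finset.sum_comm]
    refine Finset.sum_congr rfl fun I _ => ?_
    rw [Pi.smul_apply, smul_eq_mul, mono_apply, Finset.mul_sum]
    refine Finset.sum_congr rfl fun σ _ => ?_
    ring
  have h5 : ((Fintype.card (Perm κ) : ℕ) : L) • (fun v : κ → X.H1 => ((f v : ℚ) : L)) ∈
      LSp B L X κ := by
    rw [hsum]
    refine Submodule.sum_mem _ fun I _ => ?_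
    by_cases hI : c I = 0
    · rw [hI, zero_smul]
      exact Submodule.zero_mem _
    · exact Submodule.smul_mem _ _ (hmono I hI)
  have hne : ((Fintype.card (Perm κ) : ℕ) : L) ≠ 0 := Nat.cast_ne_zero.2 Fintype.card_ne_zero
  have h6 := Submodule.smul_mem _ (((Fintype.card (Perm κ) : ℕ) : L))⁻¹ h5
  rwa [smul_smul, inv_mul_cancel₀ hne, one_smul] at h6

end

end Pool.Agent.W547.KB
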