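import Pool.Agent.H86.CMLib.W547.KB.Mono

/-!
# Traces of balanced monomials are Hodge classes
-/

set_option linter.unusedSectionVars false
set_option linter.unusedVariables false

namespace Pool.Agent.W547.KB

open NumberField Pool.Agent.H204R3.CM Equiv Module

noncomputable section

variable {B : CMPair} {L : Type} [Field L] [NumberField L] {X Y : CMAV} {κ κ' : Type}
  [Fintype κ] [DecidableEq κ] [Fintype κ'] [DecidableEq κ']

/-- The set of automorphisms of `L` that move the embedding `x.2` into the CM type. -/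
def St (j : L →+* ℂ) (x : Wt X L) : Set (L ≃ₐ[ℚ] L) :=
  {σ | j.comp (σ • x.2) ∈ (X.factor x.1).Φ}

open Classical in
/-- Every automorphism lies in half of the sets. -/
def Balanced (s : κ → Set (L ≃ₐ[ℚ] L)) : Prop :=
  ∀ σ : L ≃ₐ[ℚ] L, ∑ k, (if σ ∈ s k then (1 : ℤ) else -1) = 0

/-- The trace of a multiple of a monomial. -/
def trForm (α : L) (I : κ → Wt X L) : X.H1 [⋀^κ]→ₗ[ℚ] ℚ :=
  ((Algebra.trace ℚ L).comp (LinearMap.mulLeft ℚ α)).compAlternatingMap (monoAlt I)

theorem trForm_apply (α : L) (I : κ → Wt X L) (v : κ → X.H1) :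
    trForm α I v = Algebra.trace ℚ L (α * mono I v) := rfl

/-- The coordinates on the tangent space. -/
def thX (X : CMAV) : X.Tan →ₗ[ℝ] (Wt X ℂ → ℂ) :=
  theta (E := fun i => (X.factor i).E) (Φ := fun i => (X.factor i).Φ) (fun i : X.I => i)
    (fun i => (X.factor i).isCMType)

theorem thX_per (w : X.H1) (x : Wt X ℂ) : thX X (X.per w) x = x.2 (w x.1) :=
  congrFun (theta_per (E := fun i => (X.factor i).E) (Φ := fun i => (X.factor i).Φ)
    (fun i : X.I => i) (fun i => (X.factor i).isCMType) w) x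

open Classical in
theorem thX_smul (z : ℂ) (u : X.Tan) (x : Wt X ℂ) :
    thX X (z • u) x = (if x.2 ∈ (X.factor x.1).Φ then z else starRingEnd ℂ z) * thX X u x := by
  have h := congrFun (theta_smul (E := fun i => (X.factor i).E) (Φ := fun i => (X.factor i).Φ)
    (fun i : X.I => i) (fun i => (X.factor i).isCMType) z u) x
  have h2 : dz (fun i : X.I => i) (fun i => (X.factor i).Φ) z x =
      (if x.2 ∈ (X.factor x.1).Φ then z else starRingEnd ℂ z) := by
    unfold dz
    rfl
  rw [h2] at h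
  exact h

/-- The real multilinear form belonging to an automorphism. -/
def psiAlt (j : L →+* ℂ) (I : κ → Wt X L) (σ : L ≃ₐ[ℚ] L) : X.Tan [⋀^κ]→ₗ[ℝ] ℂ :=
  MultilinearMap.alternatization
    ((MultilinearMap.mkPiAlgebra ℝ κ ℂ).compLinearMap
      (fun k => (LinearMap.proj (⟨(I k).1, j.comp (σ • (I k).2)⟩ : Wt X ℂ) :
        (Wt X ℂ → ℂ) →ₗ[ℝ] ℂ).comp (thX X)))

theorem psiAlt_apply (j : L →+* ℂ) (I : κ → Wt X L) (σ : L ≃ₐ[ℚ] L) (u : κ → X.Tan) :
    psiAlt j I σ u = ∑ τ : Perm κ, ((Perm.sign τ : ℤ) : ℂ) *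
      ∏ k, thX X (u (τ k)) ⟨(I k).1, j.comp (σ • (I k).2)⟩ := by
  unfold psiAlt
  rw [MultilinearMap.alternatization_apply]
  refine Finset.sum_congr rfl fun τ _ => ?_
  rw [Units.smul_def, zsmul_eq_mul]
  rfl

theorem psiAlt_per (j : L →+* ℂ) (I : κ → Wt X L) (σ : L ≃ₐ[ℚ] L) (v : κ → X.H1) :
    psiAlt j I σ (fun k => X.per (v k)) = j (σ (mono I v)) := by
  rw [psiAlt_apply, mono_apply, map_sum, map_sum]
  refine Finset.sum_congr rfl fun τ _ => ?_
  rw [map_mul, map_mul, map_intCast, map_intCast, map_prod, map_prod]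
  congr 1
  refine Finset.prod_congr rfl fun k _ => ?_
  rw [thX_per]
  rfl

open Classical in
theorem prod_unit {z : ℂ} (hz : ‖z‖ = 1) (P : κ → Prop)
    (h : ∑ k, (if P k then (1 : ℤ) else -1) = 0) :
    ∏ k, (if P k then z else starRingEnd ℂ z) = 1 := by
  rw [Finset.prod_ite, Finset.prod_const, Finset.prod_const]
  rw [Finset.sum_ite, Finset.sum_const, Finset.sum_const, nsmul_eq_mul, nsmul_eq_mul] at h
  have h1 : (Finset.univ.filter (fun k => P k)).card =
      (Finset.univ.filter (fun k => ¬ P k)).card := by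
    have : ((Finset.univ.filter (fun k => P k)).card : ℤ) =
      ((Finset.univ.filter (fun k => ¬ P k)).card : ℤ) := by linarith
    exact_mod_cast this
  rw [h1, ← mul_pow, Complex.mul_conj, Complex.normSq_eq_norm_sq, hz]
  simp

theorem psiAlt_smul (j : L →+* ℂ) (I : κ → Wt X L) (hI : Balanced (fun k => St j (I k)))
    (σ : L ≃ₐ[ℚ] L) {z : ℂ} (hz : ‖z‖ = 1) (u : κ → X.Tan) :
    psiAlt j I σ (fun k => z • u k) = psiAlt j I σ u := by
  classical
  rw [psiAlt_apply, psiAlt_apply]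
  refine Finset.sum_congr rfl fun τ _ => ?_
  congr 1
  simp only [thX_smul]
  rw [Finset.prod_mul_distrib]
  have h1 := prod_unit hz (fun k => j.comp (σ • (I k).2) ∈ (X.factor (I k).1).Φ) (by
    exact hI σ)
  rw [h1, one_mul]

theorem isHodge_trForm [IsGalois ℚ L] (j : L →+* ℂ) (I : κ → Wt X L)
    (hI : Balanced (fun k => St j (I k))) (α : L) : IsHodge X.per (trForm α I) := by
  let ψ : MultilinearMap ℝ (fun _ : κ => X.Tan) ℝ :=
    ∑ σ : L ≃ₐ[ℚ] L, (Complex.reLm.comp (LinearMap.mulLeft ℝ (j (σ α)))).compMultilinearMap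
      (psiAlt j I σ).toMultilinearMap
  have hψ : ∀ u, ψ u = ∑ σ : L ≃ₐ[ℚ] L, (j (σ α) * psiAlt j I σ u).re := by
    intro u
    simp only [ψ, _root_.sum_apply]
    rfl
  refine ⟨ψ, fun v => ?_, fun z hz u => ?_⟩
  · rw [hψ, trForm_apply]
    have h1 := trace_eq_sum_automorphisms (K := ℚ) (L := L) (α * mono I v)
    have h2 := congrArg j h1
    rw [map_sum, eq_ratCast, map_ratCast] at h2
    have h3 : ((Algebra.trace ℚ L (α * mono I v) : ℚ) : ℂ).re =
        (((Algebra.trace ℚ L (α * mono I v) : ℚ) : ℝ)) := by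
      rw [← Complex.ofReal_ratCast, Complex.ofReal_re]
    rw [← h3, h2, Complex.re_sum]
    refine Finset.sum_congr rfl fun σ _ => ?_
    rw [psiAlt_per, map_mul, map_mul]
  · rw [hψ, hψ]
    exact Finset.sum_congr rfl fun σ _ => by rw [psiAlt_smul j I hI σ hz]

/-- A function is in the span over `L` of the traces of its multiples. -/
theorem exists_dual (L : Type) [Field L] [NumberField L] :
    ∃ (n : ℕ) (a b : Fin n → L), ∀ y : L,
      y = ∑ i, b i * ((Algebra.trace ℚ L (a i * y) : ℚ) : L) := by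
  classical
  let e := Module.finBasis ℚ L
  let d := (Algebra.traceForm ℚ L).dualBasis (traceForm_nondegenerate ℚ L) e
  refine ⟨_, e, d, fun y => ?_⟩
  have h1 := d.sum_repr y
  conv_lhs => rw [← h1]
  refine Finset.sum_congr rfl fun i _ => ?_
  have h2 : d.repr y i = Algebra.trace ℚ L (e i * y) := by
    rw [LinearMap.BilinForm.dualBasis_repr_apply, Algebra.traceForm_apply, mul_comm]
  rw [h2, Rat.smul_def, mul_comm]

theorem mono_mem_of_trForm (I : κ → Wt X L) (h : ∀ α : L, Gen B X κ (trForm α I)) :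
    mono I ∈ LSp B L X κ := by
  obtain ⟨n, a, b, hab⟩ := exists_dual L
  have h1 : mono I = ∑ i, b i • (fun v : κ → X.H1 => ((trForm (a i) I v : ℚ) : L)) := by
    funext v
    rw [Finset.sum_apply]
    exact hab (mono I v)
  rw [h1]
  exact Submodule.sum_mem _ fun i _ => Submodule.smul_mem _ _ (LSp.of_gen (h (a i)))

end

end Pool.Agent.W547.KB
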