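import Pool.Agent.H86.CMLib.W547.KB.Converse

/-!
# The generated classes are exactly the Hodge classes
-/

set_option linter.unusedSectionVars false
set_option linter.unusedVariables false

namespace Pool.Agent.W547.KB

open NumberField Pool.Agent.H204R3.CM Equiv Module

noncomputable section

variable {B : CMPair} {X Y : CMAV} {κ κ' : Type}

theorem hodge_unit [IsEmpty κ] (f : X.H1 [⋀^κ]→ₗ[ℚ] ℚ) : IsHodge X.per f := by
  refine ⟨MultilinearMap.constOfIsEmpty ℝ _ ((f (fun k => isEmptyElim k) : ℚ) : ℝ), fun v => ?_,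
    fun z hz u => rfl⟩
  have h : v = fun k => isEmptyElim k := funext fun k => isEmptyElim k
  rw [h]
  rfl

theorem hodge_zero (X : CMAV) (κ : Type) : IsHodge X.per (0 : X.H1 [⋀^κ]→ₗ[ℚ] ℚ) :=
  ⟨0, fun v => by simp, fun z hz u => rfl⟩

theorem hodge_add {f g : X.H1 [⋀^κ]→ₗ[ℚ] ℚ} (hf : IsHodge X.per f) (hg : IsHodge X.per g) :
    IsHodge X.per (f + g) := by
  obtain ⟨ψ, h1, h2⟩ := hf
  obtain ⟨ψ', h1', h2'⟩ := hg
  refine ⟨ψ + ψ', fun v => ?_, fun z hz u => ?_⟩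
  · rw [add_apply, h1, h1', AlternatingMap.add_apply]
    push_cast
    rfl
  · rw [add_apply, add_apply, h2 z hz, h2' z hz]

theorem hodge_smul (a : ℚ) {f : X.H1 [⋀^κ]→ₗ[ℚ] ℚ} (hf : IsHodge X.per f) :
    IsHodge X.per (a • f) := by
  obtain ⟨ψ, h1, h2⟩ := hf
  refine ⟨(a : ℝ) • ψ, fun v => ?_, fun z hz u => ?_⟩
  · rw [smul_apply, h1, AlternatingMap.smul_apply, smul_eq_mul, smul_eq_mul]
    push_cast
    rfl
  · rw [smul_apply, smul_apply, h2 z hz]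

theorem hodge_reindex (e : κ ≃ κ') {f : X.H1 [⋀^κ]→ₗ[ℚ] ℚ} (hf : IsHodge X.per f) :
    IsHodge X.per (f.domDomCongr e) := by
  obtain ⟨ψ, h1, h2⟩ := hf
  exact ⟨ψ.domDomCongr e, fun v => h1 (fun k => v (e k)), fun z hz u => h2 z hz (fun k => u (e k))⟩

theorem hodge_cup [Fintype κ] [DecidableEq κ] [Fintype κ'] [DecidableEq κ']
    {f : X.H1 [⋀^κ]→ₗ[ℚ] ℚ} {g : X.H1 [⋀^κ']→ₗ[ℚ] ℚ} (hf : IsHodge X.per f)
    (hg : IsHodge X.per g) (h : X.H1 [⋀^κ ⊕ κ']→ₗ[ℚ] ℚ)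
    (hh : ∀ v : κ ⊕ κ' → X.H1, h v = ∑ σ : Equiv.Perm (κ ⊕ κ'), ((Equiv.Perm.sign σ : ℤ) : ℚ) *
        (f (fun k => v (σ (Sum.inl k))) * g (fun k => v (σ (Sum.inr k))))) : IsHodge X.per h := by
  obtain ⟨ψ, h1, h2⟩ := hf
  obtain ⟨ψ', h1', h2'⟩ := hg
  have key : ∀ u : κ ⊕ κ' → X.Tan, (MultilinearMap.alternatization
      ((LinearMap.mul' ℝ ℝ).compMultilinearMap (ψ.domCoprod ψ'))) u =
        ∑ σ : Equiv.Perm (κ ⊕ κ'), ((Equiv.Perm.sign σ : ℤ) : ℝ) *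
          (ψ (fun k => u (σ (Sum.inl k))) * ψ' (fun k => u (σ (Sum.inr k)))) := by
    intro u
    rw [MultilinearMap.alternatization_apply]
    refine Finset.sum_congr rfl fun σ _ => ?_
    rw [Units.smul_def, zsmul_eq_mul]
    rfl
  refine ⟨(MultilinearMap.alternatization
      ((LinearMap.mul' ℝ ℝ).compMultilinearMap (ψ.domCoprod ψ'))).toMultilinearMap,
    fun v => ?_, fun z hz u => ?_⟩
  · refine (key _).trans ?_
    rw [hh v, Rat.cast_sum]
    refine Finset.sum_congr rfl fun σ _ => ?_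
    rw [h1 (fun k => v (σ (Sum.inl k))), h1' (fun k => v (σ (Sum.inr k)))]
    push_cast
    rfl
  · refine (key _).trans (Eq.trans ?_ (key _).symm)
    refine Finset.sum_congr rfl fun σ _ => ?_
    rw [h2 z hz (fun k => u (σ (Sum.inl k))), h2' z hz (fun k => u (σ (Sum.inr k)))]

theorem hodge_pull {h : X.H1 →ₗ[ℚ] Y.H1} (hh : IsHom X Y h) {f : Y.H1 [⋀^κ]→ₗ[ℚ] ℚ}
    (hf : IsHodge Y.per f) : IsHodge X.per (f.compLinearMap h) := by
  obtain ⟨ψ, h1, h2⟩ := hf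
  obtain ⟨H, hH⟩ := hh
  refine ⟨ψ.compLinearMap (fun _ => H.restrictScalars ℝ), fun v => ?_, fun z hz u => ?_⟩
  · change ψ (fun l => H (X.per (v l))) = _
    simp only [hH]
    exact h1 (fun l => h (v l))
  · change ψ (fun l => H (z • u l)) = ψ (fun l => H (u l))
    simp only [map_smul]
    exact h2 z hz (fun l => H (u l))

open Classical in
theorem sum_aux {a b c d p q : Prop} (ha : (a ∧ b) ↔ p) (hb : (¬a ∧ ¬b) ↔ q) (hc : (c ∧ d) ↔ q)
    (hd : (¬c ∧ ¬d) ↔ p) (he : p → ¬q) :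
    (if a then (1 : ℤ) else -1) + (if b then (1 : ℤ) else -1) + (if c then (1 : ℤ) else -1) +
      (if d then (1 : ℤ) else -1) = 0 := by
  by_cases a <;> by_cases b <;> by_cases c <;> by_cases d <;> simp_all

theorem balanced_weil {L : Type} [Field L] [NumberField L] [IsCMField L] [IsGalois ℚ L]
    (ι : B.E →+* L) (Φ : Fin 3 → Set (L →+* ℂ)) (hΦ : ∀ i, IsCMType (Φ i)) (ρ : L →+* ℂ)
    (h01 : Φ 0 ∩ Φ 1 = {ρ})
    (h2 : Φ 2 ∩ {φ | φ.comp ι ∈ B.Φ} = {ComplexEmbedding.conjugate ρ}) :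
    Balanced (fun k => St ρ ((![⟨Sum.inl 0, RingHom.id L⟩, ⟨Sum.inl 1, RingHom.id L⟩,
      ⟨Sum.inl 2, RingHom.id L⟩, ⟨Sum.inr (), ι⟩] :
        Fin 4 → Wt ((three L Φ hΦ).prod (single B)) L) k)) := by
  classical
  intro σ
  set φ : L →+* ℂ := ρ.comp (σ : L →+* L) with hφ
  have hcc : ∀ χ : L →+* ℂ, ComplexEmbedding.conjugate (ComplexEmbedding.conjugate χ) = χ := by
    intro χ
    ext x
    rw [ComplexEmbedding.conjugate_coe_eq, ComplexEmbedding.conjugate_coe_eq, Complex.conj_conj]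
  have ha : (φ ∈ Φ 0 ∧ φ ∈ Φ 1) ↔ φ = ρ := by
    rw [← Set.mem_inter_iff, h01, Set.mem_singleton_iff]
  have hb : (φ ∉ Φ 0 ∧ φ ∉ Φ 1) ↔ ComplexEmbedding.conjugate φ = ρ := by
    rw [← Set.mem_singleton_iff, ← h01, Set.mem_inter_iff, (hΦ 0 φ), (hΦ 1 φ), not_not, not_not]
  have hι : IsCMType (E := L) {φ | φ.comp ι ∈ B.Φ} := fun χ => B.isCMType (χ.comp ι)
  have hc : (φ ∈ Φ 2 ∧ φ ∈ {φ : L →+* ℂ | φ.comp ι ∈ B.Φ}) ↔
      φ = ComplexEmbedding.conjugate ρ := by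
    rw [← Set.mem_inter_iff, h2, Set.mem_singleton_iff]
  have hd : (φ ∉ Φ 2 ∧ φ ∉ {φ : L →+* ℂ | φ.comp ι ∈ B.Φ}) ↔
      ComplexEmbedding.conjugate φ = ComplexEmbedding.conjugate ρ := by
    rw [← Set.mem_singleton_iff, ← h2, Set.mem_inter_iff, (hΦ 2 φ), (hι φ), not_not, not_not]
  have e1 : ComplexEmbedding.conjugate φ = ρ ↔ φ = ComplexEmbedding.conjugate ρ := by
    constructor
    · rintro h
      rw [← h, hcc]
    · rintro h
      rw [h, hcc]
  have e2 : ComplexEmbedding.conjugate φ = ComplexEmbedding.conjugate ρ ↔ φ = ρ := by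
    constructor
    · intro h
      rw [← hcc φ, h, hcc]
    · rintro h
      rw [h]
  have e3 : φ = ρ → φ ≠ ComplexEmbedding.conjugate ρ := by
    intro h h'
    have h3 := ha.2 h
    have h4 := hb.2 (e1.2 h')
    exact h4.1 h3.1
  rw [e1] at hb
  rw [e2] at hd
  rw [Fin.sum_univ_four]
  exact sum_aux ha hb hc hd e3

theorem hodge_weil {L : Type} [Field L] [NumberField L] [IsCMField L] [IsGalois ℚ L]
    (ι : B.E →+* L) (Φ : Fin 3 → Set (L →+* ℂ)) (hΦ : ∀ i, IsCMType (Φ i)) (ρ : L →+* ℂ)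
    (h01 : Φ 0 ∩ Φ 1 = {ρ})
    (h2 : Φ 2 ∩ {φ | φ.comp ι ∈ B.Φ} = {ComplexEmbedding.conjugate ρ}) (α : L)
    (f : ((three L Φ hΦ).prod (single B)).H1 [⋀^Fin 4]→ₗ[ℚ] ℚ)
    (hf : IsWeilForm B L ι Φ hΦ α f) :
    IsHodge ((three L Φ hΦ).prod (single B)).per f := by
  have h3 := isHodge_trForm ρ _ (balanced_weil ι Φ hΦ ρ h01 h2) α
  have h5 : f = trForm α (![⟨Sum.inl 0, RingHom.id L⟩, ⟨Sum.inl 1, RingHom.id L⟩,
      ⟨Sum.inl 2, RingHom.id L⟩, ⟨Sum.inr (), ι⟩] :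
        Fin 4 → Wt ((three L Φ hΦ).prod (single B)) L) := by
    refine AlternatingMap.ext fun v => ?_
    rw [trForm_apply, mono_eq_det]
    have h4 : v = fun k => (three L Φ hΦ).pair (single B) (fun i => v k (Sum.inl i))
        (fun i => v k (Sum.inr i)) := by
      funext k s
      cases s <;> rfl
    refine (congrArg f h4).trans ((hf _ _).trans ?_)
    unfold trDet
    congr 3
  rw [h5]
  exact h3

theorem isHodge_of_gen {f : X.H1 [⋀^κ]→ₗ[ℚ] ℚ} (h : Gen B X κ f) :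
    Finite κ → IsHodge X.per f := by
  induction h with
  | unit f => exact fun _ => hodge_unit f
  | divisor hκ f hf => exact fun _ => hf
  | weil L ι Φ hΦ ρ h01 h2 α f hf => exact fun _ => hodge_weil ι Φ hΦ ρ h01 h2 α f hf
  | zero X κ => exact fun _ => hodge_zero X κ
  | add f g _ _ ihf ihg => exact fun h => hodge_add (ihf h) (ihg h)
  | smul a f _ ih => exact fun h => hodge_smul a (ih h)
  | reindex e f _ ih =>
    intro h
    exact hodge_reindex e (ih (Finite.of_equiv _ e.symm))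
  | cup f g _ _ h hh ihf ihg => exact fun _ => hodge_cup (ihf inferInstance) (ihg inferInstance) h hh
  | pull h hh f _ ih => exact fun hfin => hodge_pull hh (ih hfin)
  | push b f _ g hg ih =>
    intro h
    have := Module.Finite.finite_basis b
    exact hodge_push b (ih inferInstance) g hg

/-- The generated classes are exactly the Hodge classes. -/
theorem isHodge_iff (B : CMPair) (X : CMAV) {κ : Type} [Finite κ] (f : X.H1 [⋀^κ]→ₗ[ℚ] ℚ) :
    IsHodge X.per f ↔ Gen B X κ f :=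
  ⟨gen_of_hodge B X f, fun h => isHodge_of_gen h inferInstance⟩

end

end Pool.Agent.W547.KB
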