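import Pool.Agent.H86.CMLib.W547.KB.Span

/-!
# Monomials in the weights
-/

set_option linter.unusedSectionVars false
set_option linter.unusedVariables false

namespace Pool.Agent.W547.KB

open NumberField Pool.Agent.H204R3.CM Equiv Module

noncomputable section

variable {B : CMPair} {L : Type} [Field L] [NumberField L] {X Y : CMAV} {κ κ' : Type}
  [Fintype κ] [DecidableEq κ] [Fintype κ'] [DecidableEq κ']

/-- The weights of an abelian variety of CM type: embeddings of the fields. -/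
abbrev Wt (X : CMAV) (L : Type) [Field L] : Type := Σ i : X.I, ((X.factor i).E →+* L)

/-- The coordinate belonging to a weight. -/
def ev (w : X.H1) (x : Wt X L) : L := x.2 (w x.1)

/-- The coordinate, as a linear map. -/
def evLin (x : Wt X L) : X.H1 →ₗ[ℚ] L where
  toFun w := ev w x
  map_add' w w' := map_add x.2 _ _
  map_smul' a w := by
    change x.2 (a • w x.1) = a • x.2 (w x.1)
    rw [Rat.smul_def, map_mul, map_ratCast, Rat.smul_def]

/-- The alternated product of the coordinates `I k`. -/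
def monoAlt (I : κ → Wt X L) : X.H1 [⋀^κ]→ₗ[ℚ] L :=
  MultilinearMap.alternatization
    ((MultilinearMap.mkPiAlgebra ℚ κ L).compLinearMap (fun k => evLin (I k)))

/-- The alternated product of the coordinates `I k`, as a function. -/
def mono (I : κ → Wt X L) : (κ → X.H1) → L := fun v => monoAlt I v

theorem mono_apply (I : κ → Wt X L) (v : κ → X.H1) :
    mono I v = ∑ σ : Perm κ, ((Perm.sign σ : ℤ) : L) * ∏ k, ev (v (σ k)) (I k) := by
  unfold mono monoAlt
  rw [MultilinearMap.alternatization_apply]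
  refine Finset.sum_congr rfl fun σ _ => ?_
  rw [Units.smul_def, zsmul_eq_mul]
  rfl

theorem mono_eq_det (I : κ → Wt X L) (v : κ → X.H1) :
    mono I v = Matrix.det (Matrix.of fun k l => ev (v k) (I l)) := by
  rw [mono_apply, Matrix.det_apply']
  rfl

theorem mono_cup (I : κ → Wt X L) (I' : κ' → Wt X L) :
    cupFun (mono I) (mono I') =
      ((Fintype.card (Perm κ) : L) * (Fintype.card (Perm κ') : L)) • mono (Sum.elim I I') := by
  funext v
  rw [Pi.smul_apply, smul_eq_mul, mono_apply]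
  unfold cupFun
  have h1 : ∀ σ : Perm (κ ⊕ κ'),
      ((Perm.sign σ : ℤ) : L) * (mono I (fun k => v (σ (Sum.inl k))) *
        mono I' (fun k => v (σ (Sum.inr k)))) =
      ∑ τ : Perm κ, ∑ τ' : Perm κ', ((Perm.sign (σ * Perm.sumCongr τ τ') : ℤ) : L) *
        ∏ s, ev (v ((σ * Perm.sumCongr τ τ') s)) (Sum.elim I I' s) := by
    intro σ
    rw [mono_apply, mono_apply, Finset.sum_mul_sum, Finset.mul_sum]
    refine Finset.sum_congr rfl fun τ _ => ?_
    rw [Finset.mul_sum]
    refine Finset.sum_congr rfl fun τ' _ => ?_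
    have e1 : ∏ s, ev (v ((σ * Perm.sumCongr τ τ') s)) (Sum.elim I I' s) =
        (∏ k, ev (v (σ (Sum.inl (τ k)))) (I k)) * ∏ k, ev (v (σ (Sum.inr (τ' k)))) (I' k) := by
      rw [Fintype.prod_sum_type]
      rfl
    rw [e1, map_mul, Perm.sign_sumCongr]
    push_cast
    ring
  rw [Finset.sum_congr rfl (fun σ _ => h1 σ), Finset.sum_comm]
  have h2 : ∀ τ : Perm κ, ∑ σ : Perm (κ ⊕ κ'), ∑ τ' : Perm κ',
      ((Perm.sign (σ * Perm.sumCongr τ τ') : ℤ) : L) *
        ∏ s, ev (v ((σ * Perm.sumCongr τ τ') s)) (Sum.elim I I' s) =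
      (Fintype.card (Perm κ') : L) * ∑ σ : Perm (κ ⊕ κ'), ((Perm.sign σ : ℤ) : L) *
        ∏ s, ev (v (σ s)) (Sum.elim I I' s) := by
    intro τ
    rw [Finset.sum_comm]
    have h3 : ∀ τ' : Perm κ', ∑ σ : Perm (κ ⊕ κ'),
        ((Perm.sign (σ * Perm.sumCongr τ τ') : ℤ) : L) *
        ∏ s, ev (v ((σ * Perm.sumCongr τ τ') s)) (Sum.elim I I' s) =
        ∑ σ : Perm (κ ⊕ κ'), ((Perm.sign σ : ℤ) : L) *
        ∏ s, ev (v (σ s)) (Sum.elim I I' s) := by
      intro τ'
      exact Fintype.sum_equiv (Equiv.mulRight (Perm.sumCongr τ τ')) _ _ (fun σ => rfl)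
    rw [Finset.sum_congr rfl (fun τ' _ => h3 τ'), Finset.sum_const, Finset.card_univ,
      nsmul_eq_mul]
  rw [Finset.sum_congr rfl (fun τ _ => h2 τ), Finset.sum_const, Finset.card_univ,
      nsmul_eq_mul, mul_assoc]

theorem mono_reindex (e : κ ≃ κ') (I : κ → Wt X L) :
    (fun v : κ' → X.H1 => mono I (fun k => v (e k))) = mono (fun k => I (e.symm k)) := by
  funext v
  rw [mono_apply, mono_apply]
  refine Fintype.sum_equiv e.permCongr _ _ fun σ => ?_
  rw [Perm.sign_permCongr]
  congr 1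
  refine Fintype.prod_equiv e _ _ fun k => ?_
  rw [Equiv.permCongr_apply, Equiv.symm_apply_apply]

theorem mono_pull (h : X.H1 →ₗ[ℚ] Y.H1) (I : κ → Wt X L) (I' : κ → Wt Y L)
    (hI : ∀ (w : X.H1) (k : κ), ev (h w) (I' k) = ev w (I k)) :
    (fun v : κ → X.H1 => mono I' (fun k => h (v k))) = mono I := by
  funext v
  rw [mono_apply, mono_apply]
  refine Finset.sum_congr rfl fun σ _ => ?_
  congr 1
  exact Finset.prod_congr rfl fun k _ => hI _ _

end

end Pool.Agent.W547.KB
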