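import Pool.Agent.H86.CMLib.W547.KB.Defs
import Pool.Agent.H86.CMLib.H204R3.CM.Main

/-!
# The span of the generated classes over a number field
-/

set_option linter.unusedSectionVars false
set_option linter.unusedVariables false

namespace Pool.Agent.W547.KB

open NumberField Pool.Agent.H204R3.CM Equiv Module

noncomputable section

variable {B : CMPair} {L : Type} [Field L] [NumberField L] {X Y : CMAV} {κ κ' : Type}

/-- The span over `L` of the generated classes. -/
def LSp (B : CMPair) (L : Type) [Field L] [NumberField L] (X : CMAV) (κ : Type) :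
    Submodule L ((κ → X.H1) → L) :=
  Submodule.span L {g | ∃ f : X.H1 [⋀^κ]→ₗ[ℚ] ℚ, Gen B X κ f ∧ g = fun v => ((f v : ℚ) : L)}

theorem LSp.of_gen {f : X.H1 [⋀^κ]→ₗ[ℚ] ℚ} (hf : Gen B X κ f) :
    (fun v => ((f v : ℚ) : L)) ∈ LSp B L X κ :=
  Submodule.subset_span ⟨f, hf, rfl⟩

theorem LSp.unit [IsEmpty κ] (F : (κ → X.H1) → L) : F ∈ LSp B L X κ := by
  have h1 : F = F (fun k => isEmptyElim k) • (fun v =>
      (((AlternatingMap.constOfIsEmpty ℚ X.H1 κ (1 : ℚ)) v : ℚ) : L)) := by
    funext v
    have h2 : v = fun k => isEmptyElim k := funext fun k => isEmptyElim k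
    subst h2
    simp
  rw [h1]
  exact Submodule.smul_mem _ _ (LSp.of_gen (Gen.unit _))

theorem LSp.reindex (e : κ ≃ κ') {F : (κ → X.H1) → L} (hF : F ∈ LSp B L X κ) :
    (fun v : κ' → X.H1 => F (fun k => v (e k))) ∈ LSp B L X κ' := by
  induction hF using Submodule.span_induction with
  | mem F hF =>
    obtain ⟨f, hf, rfl⟩ := hF
    exact LSp.of_gen (Gen.reindex e f hf)
  | zero => exact Submodule.zero_mem _
  | add F G _ _ hF hG => exact Submodule.add_mem _ hF hG
  | smul c F _ hF => exact Submodule.smul_mem _ c hF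

theorem LSp.pull {h : X.H1 →ₗ[ℚ] Y.H1} (hh : IsHom X Y h) {F : (κ → Y.H1) → L}
    (hF : F ∈ LSp B L Y κ) : (fun v : κ → X.H1 => F (fun k => h (v k))) ∈ LSp B L X κ := by
  induction hF using Submodule.span_induction with
  | mem F hF =>
    obtain ⟨f, hf, rfl⟩ := hF
    exact LSp.of_gen (Gen.pull h hh f hf)
  | zero => exact Submodule.zero_mem _
  | add F G _ _ hF hG => exact Submodule.add_mem _ hF hG
  | smul c F _ hF => exact Submodule.smul_mem _ c hF

/-- The product of two forms, alternated. -/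
def cupAlt [Fintype κ] [DecidableEq κ] [Fintype κ'] [DecidableEq κ']
    (f : X.H1 [⋀^κ]→ₗ[ℚ] ℚ) (g : X.H1 [⋀^κ']→ₗ[ℚ] ℚ) : X.H1 [⋀^κ ⊕ κ']→ₗ[ℚ] ℚ :=
  MultilinearMap.alternatization ((LinearMap.mul' ℚ ℚ).compMultilinearMap
    (f.toMultilinearMap.domCoprod g.toMultilinearMap))

theorem cupAlt_apply [Fintype κ] [DecidableEq κ] [Fintype κ'] [DecidableEq κ']
    (f : X.H1 [⋀^κ]→ₗ[ℚ] ℚ) (g : X.H1 [⋀^κ']→ₗ[ℚ] ℚ) (v : κ ⊕ κ' → X.H1) :
    cupAlt f g v = ∑ σ : Perm (κ ⊕ κ'), ((Perm.sign σ : ℤ) : ℚ) *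
        (f (fun k => v (σ (Sum.inl k))) * g (fun k => v (σ (Sum.inr k)))) := by
  unfold cupAlt
  rw [MultilinearMap.alternatization_apply]
  refine Finset.sum_congr rfl fun σ _ => ?_
  rw [Units.smul_def, zsmul_eq_mul]
  rfl

/-- The cup product on functions. -/
def cupFun [Fintype κ] [DecidableEq κ] [Fintype κ'] [DecidableEq κ']
    (F : (κ → X.H1) → L) (G : (κ' → X.H1) → L) : (κ ⊕ κ' → X.H1) → L :=
  fun v => ∑ σ : Perm (κ ⊕ κ'), ((Perm.sign σ : ℤ) : L) *
        (F (fun k => v (σ (Sum.inl k))) * G (fun k => v (σ (Sum.inr k))))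

theorem LSp.cup [Fintype κ] [DecidableEq κ] [Fintype κ'] [DecidableEq κ']
    {F : (κ → X.H1) → L} {G : (κ' → X.H1) → L} (hF : F ∈ LSp B L X κ) (hG : G ∈ LSp B L X κ') :
    cupFun F G ∈ LSp B L X (κ ⊕ κ') := by
  induction hF using Submodule.span_induction with
  | mem F hF =>
    obtain ⟨f, hf, rfl⟩ := hF
    induction hG using Submodule.span_induction with
    | mem G hG =>
      obtain ⟨g, hg, rfl⟩ := hG
      have h1 : cupFun (fun v => ((f v : ℚ) : L)) (fun v => ((g v : ℚ) : L)) =
          fun v => ((cupAlt f g v : ℚ) : L) := by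
        funext v
        rw [cupAlt_apply]
        unfold cupFun
        push_cast
        rfl
      rw [h1]
      exact LSp.of_gen (Gen.cup f g hf hg _ (cupAlt_apply f g))
    | zero =>
      have h1 : cupFun (fun v => ((f v : ℚ) : L)) (0 : (κ' → X.H1) → L) = 0 := by
        funext v
        simp [cupFun]
      rw [h1]
      exact Submodule.zero_mem _
    | add G G' _ _ hG hG' =>
      have h1 : cupFun (fun v => ((f v : ℚ) : L)) (G + G') =
          cupFun (fun v => ((f v : ℚ) : L)) G + cupFun (fun v => ((f v : ℚ) : L)) G' := by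
        funext v
        simp only [cupFun, Pi.add_apply, mul_add, Finset.sum_add_distrib]
      rw [h1]
      exact Submodule.add_mem _ hG hG'
    | smul c G _ hG =>
      have h1 : cupFun (fun v => ((f v : ℚ) : L)) (c • G) =
          c • cupFun (fun v => ((f v : ℚ) : L)) G := by
        funext v
        simp only [cupFun, Pi.smul_apply, smul_eq_mul, Finset.mul_sum]
        exact Finset.sum_congr rfl fun σ _ => by ring
      rw [h1]
      exact Submodule.smul_mem _ c hG
  | zero =>
    have h1 : cupFun (0 : (κ → X.H1) → L) G = 0 := by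
      funext v
      simp [cupFun]
    rw [h1]
    exact Submodule.zero_mem _
  | add F F' _ _ hF hF' =>
    have h1 : cupFun (F + F') G = cupFun F G + cupFun F' G := by
      funext v
      simp only [cupFun, Pi.add_apply, mul_add, add_mul, Finset.sum_add_distrib]
    rw [h1]
    exact Submodule.add_mem _ hF hF'
  | smul c F _ hF =>
    have h1 : cupFun (c • F) G = c • cupFun F G := by
      funext v
      simp only [cupFun, Pi.smul_apply, smul_eq_mul, Finset.mul_sum]
      exact Finset.sum_congr rfl fun σ _ => by ring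
    rw [h1]
    exact Submodule.smul_mem _ c hF

theorem pair_add (w w' : X.H1) (u u' : Y.H1) :
    X.pair Y (w + w') (u + u') = X.pair Y w u + X.pair Y w' u' := by
  funext s
  cases s <;> rfl

theorem pair_smul (a : ℚ) (w : X.H1) (u : Y.H1) :
    X.pair Y (a • w) (a • u) = a • X.pair Y w u := by
  funext s
  cases s <;> rfl

/-- The inclusion of the homology of the first factor. -/
def inX (X Y : CMAV) : X.H1 →ₗ[ℚ] (X.prod Y).H1 where
  toFun w := X.pair Y w 0
  map_add' w w' := by
    have h := pair_add (X := X) (Y := Y) w w' 0 0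
    rwa [add_zero] at h
  map_smul' a w := by
    have h := pair_smul (X := X) (Y := Y) a w 0
    rwa [smul_zero] at h

/-- The push-forward of a form. -/
def pushAlt (b : κ' → Y.H1) (f : (X.prod Y).H1 [⋀^κ ⊕ κ']→ₗ[ℚ] ℚ) : X.H1 [⋀^κ]→ₗ[ℚ] ℚ where
  toFun v := f (Sum.elim (fun k => inX X Y (v k)) (fun k => X.pair Y 0 (b k)))
  map_update_add' := by
    classical
    intro hd v k x y
    have h1 : ∀ z : X.H1, Sum.elim (fun k' => inX X Y (Function.update v k z k'))
        (fun k => X.pair Y 0 (b k)) =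
        Function.update (Sum.elim (fun k' => inX X Y (v k')) (fun k => X.pair Y 0 (b k)))
          (Sum.inl k) (inX X Y z) := by
      intro z
      funext s
      rcases s with s | s
      · by_cases h : s = k
        · subst h; simp
        · simp [h]
      · simp
    rw [h1, h1, h1, map_add, AlternatingMap.map_update_add]
  map_update_smul' := by
    classical
    intro hd v k c x
    have h1 : ∀ z : X.H1, Sum.elim (fun k' => inX X Y (Function.update v k z k'))
        (fun k => X.pair Y 0 (b k)) =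
        Function.update (Sum.elim (fun k' => inX X Y (v k')) (fun k => X.pair Y 0 (b k)))
          (Sum.inl k) (inX X Y z) := by
      intro z
      funext s
      rcases s with s | s
      · by_cases h : s = k
        · subst h; simp
        · simp [h]
      · simp
    rw [h1, h1, map_smul, AlternatingMap.map_update_smul]
  map_eq_zero_of_eq' v i k hv hik := by
    refine f.map_eq_zero_of_eq _ (i := Sum.inl i) (j := Sum.inl k) ?_ (by simpa using hik)
    simp [hv]

theorem LSp.push (b : Module.Basis κ' ℚ Y.H1) {F : (κ ⊕ κ' → (X.prod Y).H1) → L}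
    (hF : F ∈ LSp B L (X.prod Y) (κ ⊕ κ')) :
    (fun v : κ → X.H1 => F (Sum.elim (fun k => X.pair Y (v k) 0) (fun k => X.pair Y 0 (b k)))) ∈
      LSp B L X κ := by
  induction hF using Submodule.span_induction with
  | mem F hF =>
    obtain ⟨f, hf, rfl⟩ := hF
    exact LSp.of_gen (f := pushAlt b f) (Gen.push b f hf _ (fun v => rfl))
  | zero => exact Submodule.zero_mem _
  | add F G _ _ hF hG => exact Submodule.add_mem _ hF hG
  | smul c F _ hF => exact Submodule.smul_mem _ c hF

/-- Descent. -/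
theorem gen_of_LSp [Fintype κ] {f : X.H1 [⋀^κ]→ₗ[ℚ] ℚ}
    (hf : (fun v => ((f v : ℚ) : L)) ∈ LSp B L X κ) : Gen B X κ f := by
  let S : Set ((κ → X.H1) → ℚ) := {g | ∃ f : X.H1 [⋀^κ]→ₗ[ℚ] ℚ, Gen B X κ f ∧ g = fun v => f v}
  have h1 : (fun v => ((f v : ℚ) : L)) ∈
      Submodule.span L {g : (κ → X.H1) → L | ∃ s ∈ S, g = fun x => ((s x : ℚ) : L)} := by
    refine Submodule.span_mono ?_ hf
    rintro g ⟨f, hf, rfl⟩
    exact ⟨fun v => f v, ⟨f, hf, rfl⟩, rfl⟩
  have h2 := span_descent S (fun v => f v) h1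
  have h3 : ∀ g ∈ Submodule.span ℚ S, ∃ f : X.H1 [⋀^κ]→ₗ[ℚ] ℚ, Gen B X κ f ∧ g = fun v => f v := by
    intro g hg
    induction hg using Submodule.span_induction with
    | mem g hg => exact hg
    | zero => exact ⟨0, Gen.zero X κ, rfl⟩
    | add g g' _ _ h h' =>
      obtain ⟨f, hf, rfl⟩ := h
      obtain ⟨f', hf', rfl⟩ := h'
      exact ⟨f + f', Gen.add f f' hf hf', rfl⟩
    | smul c g _ h =>
      obtain ⟨f, hf, rfl⟩ := h
      exact ⟨c • f, Gen.smul c f hf, rfl⟩
  obtain ⟨f', hf', h4⟩ := h3 _ h2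
  have h5 : f = f' := AlternatingMap.ext fun v => congrFun h4 v
  rw [h5]
  exact hf'

end

end Pool.Agent.W547.KB
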