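import Pool.Agent.H86.CMLib.W547.KB.Weil

/-!
# Exchange of one pair of embeddings, and the main induction
-/

set_option linter.unusedSectionVars false
set_option linter.unusedVariables false

namespace Pool.Agent.W547.KB

open NumberField Pool.Agent.H204R3.CM Equiv Module

noncomputable section

variable {B : CMPair} {L : Type} [Field L] [NumberField L] [IsCMField L] [IsGalois ℚ L]
  {κ κ' : Type} [Fintype κ] [DecidableEq κ] [Fintype κ'] [DecidableEq κ']

/-- `σ` in both of two half systems of the family. -/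
theorem exists_other {s : κ → Set (L ≃ₐ[ℚ] L)} (hb : Balanced s) (σ : L ≃ₐ[ℚ] L) (a b : κ)
    (hab : a ≠ b) (ha : σ ∈ s a) (hb' : σ ∈ s b) : ∃ l, l ≠ a ∧ l ≠ b ∧ σ ∉ s l := by
  classical
  by_contra hcon
  push Not at hcon
  have h1 := hb σ
  have h2 : ∀ k, σ ∈ s k := by
    intro k
    by_cases h : k = a
    · rw [h]; exact ha
    · by_cases h' : k = b
      · rw [h']; exact hb'
      · exact hcon k h h'
  have h3 : ∑ k : κ, (if σ ∈ s k then (1 : ℤ) else -1) = Fintype.card κ := by
    rw [Finset.sum_congr rfl (fun k _ => if_pos (h2 k))]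
    simp
  have h4 : (0 : ℤ) < Fintype.card κ := by exact_mod_cast Fintype.card_pos_iff.2 ⟨a⟩
  have h5 : (Fintype.card κ : ℤ) = 0 := by
    rw [← h3]
    convert h1 using 1
  omega

/-- The exchanged family. -/
def exch (s : κ → Set (L ≃ₐ[ℚ] L)) (σ : L ≃ₐ[ℚ] L) (b l : κ) : κ → Set (L ≃ₐ[ℚ] L) :=
  fun k => if k = b ∨ k = l then toggle σ (s k) else s k

theorem exch_b (s : κ → Set (L ≃ₐ[ℚ] L)) (σ : L ≃ₐ[ℚ] L) (b l : κ) :
    exch s σ b l b = toggle σ (s b) := by simp [exch]

theorem exch_l (s : κ → Set (L ≃ₐ[ℚ] L)) (σ : L ≃ₐ[ℚ] L) (b l : κ) :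
    exch s σ b l l = toggle σ (s l) := by simp [exch]

theorem exch_other (s : κ → Set (L ≃ₐ[ℚ] L)) (σ : L ≃ₐ[ℚ] L) (b l k : κ) (h : k ≠ b)
    (h' : k ≠ l) : exch s σ b l k = s k := by simp [exch, h, h']

theorem exch_half {s : κ → Set (L ≃ₐ[ℚ] L)} (hs : ∀ k, IsHalf (s k)) (σ : L ≃ₐ[ℚ] L) (b l : κ)
    (k : κ) : IsHalf (exch s σ b l k) := by
  unfold exch
  split_ifs
  · exact (hs k).toggle σ
  · exact hs k

theorem exch_balanced {s : κ → Set (L ≃ₐ[ℚ] L)} (hs : ∀ k, IsHalf (s k)) (hbal : Balanced s)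
    (σ : L ≃ₐ[ℚ] L) (b l : κ) (hbl : b ≠ l) (hb : σ ∈ s b) (hl : σ ∉ s l) :
    Balanced (exch s σ b l) := by
  classical
  intro τ
  have h1 := hbal τ
  have hb2 : cc L * σ ∉ s b := (hs b σ).1 hb
  have hl2 : cc L * σ ∈ s l := by
    by_contra h
    exact hl ((hs l σ).2 h)
  by_cases hτ : τ = σ ∨ τ = cc L * σ
  · -- the contributions of `b` and `l` are exchanged
    have h2 : ∀ k, (if τ ∈ exch s σ b l k then (1 : ℤ) else -1) =
        (if τ ∈ s (Equiv.swap b l k) then (1 : ℤ) else -1) := by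
      intro k
      by_cases hkb : k = b
      · subst hkb
        rw [exch_b, Equiv.swap_apply_left]
        rcases hτ with rfl | rfl
        · have h3 : τ ∉ toggle τ (s k) := by
            rw [mem_toggle]
            tauto
          rw [if_neg h3, if_neg hl]
        · have h3 : cc L * σ ∈ toggle σ (s k) := by
            rw [mem_toggle]
            tauto
          rw [if_pos h3, if_pos hl2]
      · by_cases hkl : k = l
        · subst hkl
          rw [exch_l, Equiv.swap_apply_right]
          rcases hτ with rfl | rfl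
          · have h3 : τ ∈ toggle τ (s k) := by
              rw [mem_toggle]
              tauto
            rw [if_pos h3, if_pos hb]
          · have h3 : cc L * σ ∉ toggle σ (s k) := by
              rw [mem_toggle]
              tauto
            rw [if_neg h3, if_neg hb2]
        · rw [exch_other s σ b l k hkb hkl, Equiv.swap_apply_of_ne_of_ne hkb hkl]
    have h3 : ∑ k, (if τ ∈ exch s σ b l k then (1 : ℤ) else -1) =
        ∑ k, (if τ ∈ s k then (1 : ℤ) else -1) := by
      rw [Finset.sum_congr rfl (fun k _ => h2 k)]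
      exact Equiv.sum_comp (Equiv.swap b l) (fun k => if τ ∈ s k then (1 : ℤ) else -1)
    have h4 : ∑ k, (if τ ∈ s k then (1 : ℤ) else -1) = 0 := by
      convert h1 using 1
    have h5 := h3.trans h4
    convert h5 using 1
  · have h2 : ∀ k, (if τ ∈ exch s σ b l k then (1 : ℤ) else -1) =
        (if τ ∈ s k then (1 : ℤ) else -1) := by
      intro k
      have h3 : τ ∈ exch s σ b l k ↔ τ ∈ s k := by
        unfold exch
        split_ifs
        · rw [mem_toggle]
          tauto
        · exact Iff.rfl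
      simp only [h3]
    have h3 : ∑ k, (if τ ∈ exch s σ b l k then (1 : ℤ) else -1) = 0 := by
      rw [Finset.sum_congr rfl (fun k _ => h2 k)]
      convert h1 using 1
    convert h3 using 1

theorem alg_of_exch (ι : B.E →+* L) (j : L →+* ℂ) {s : κ → Set (L ≃ₐ[ℚ] L)} (hs : ∀ k, IsHalf (s k))
    (σ : L ≃ₐ[ℚ] L) (b l : κ) (hbl : b ≠ l) (hb : σ ∈ s b) (hl : σ ∉ s l)
    (h : Alg B j (exch s σ b l)) : Alg B j s := by
  have hb2 : cc L * σ ∉ s b := (hs b σ).1 hb
  have hl2 : cc L * σ ∈ s l := by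
    by_contra h
    exact hl ((hs l σ).2 h)
  let sb := toggle σ (s b)
  let sl := toggle σ (s l)
  have hsb : IsHalf sb := (hs b).toggle σ
  have hsl : IsHalf sl := (hs l).toggle σ
  -- the Weil class
  let r : Fin 4 → Set (L ≃ₐ[ℚ] L) := ![s b, sbᶜ, s l, slᶜ]
  have hr : ∀ k, IsHalf (r k) := by
    intro k
    fin_cases k
    · exact hs b
    · exact hsb.compl
    · exact hs l
    · exact hsl.compl
  have hcs := cc_mul_ne (L := L) σ
  have hr1 : Alg B j r := by
    refine alg_weil ι j r hr σ ?_ ?_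
    · ext τ
      change (τ ∈ s b ∧ ¬ (τ ∈ toggle σ (s b))) ↔ τ = σ
      rw [mem_toggle]
      constructor
      · rintro ⟨h1, h2⟩
        by_contra h3
        apply h2
        left
        exact ⟨h1, h3, fun h4 => hb2 (h4 ▸ h1)⟩
      · rintro rfl
        exact ⟨hb, by tauto⟩
    · ext τ
      change (τ ∈ s l ∧ ¬ (τ ∈ toggle σ (s l))) ↔ τ = cc L * σ
      rw [mem_toggle]
      constructor
      · rintro ⟨h1, h2⟩
        by_contra h3
        apply h2
        left
        exact ⟨h1, fun h4 => hl (h4 ▸ h1), h3⟩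
      · rintro rfl
        exact ⟨hl2, by tauto⟩
  have h1 := alg_sum h hr1
  -- reorder
  let e0 : κ ⊕ Fin 4 ≃ (κ ⊕ Fin 2) ⊕ Fin 2 :=
    (Equiv.sumCongr (Equiv.refl κ) (finSumFinEquiv (m := 2) (n := 2)).symm).trans
      (Equiv.sumAssoc κ (Fin 2) (Fin 2)).symm
  let e1 : Perm ((κ ⊕ Fin 2) ⊕ Fin 2) :=
    Equiv.swap (Sum.inl (Sum.inl b)) (Sum.inl (Sum.inr 0))
  let e2 : Perm ((κ ⊕ Fin 2) ⊕ Fin 2) := Equiv.swap (Sum.inl (Sum.inl l)) (Sum.inr 0)
  have h2 : Alg B j (Sum.elim (Sum.elim s ![sb, sbᶜ]) ![sl, slᶜ]) := by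
    refine alg_reindex (e0.trans (e1.trans e2)) h1 ?_
    rintro (k | k)
    · change Sum.elim (Sum.elim s ![sb, sbᶜ]) ![sl, slᶜ] (e2 (e1 (Sum.inl (Sum.inl k)))) =
        exch s σ b l k
      by_cases hkb : k = b
      · subst hkb
        rw [exch_b]
        have h3 : e1 (Sum.inl (Sum.inl k)) = Sum.inl (Sum.inr 0) := Equiv.swap_apply_left _ _
        have h4 : e2 (Sum.inl (Sum.inr 0)) = Sum.inl (Sum.inr 0) :=
          Equiv.swap_apply_of_ne_of_ne (by simp) (by simp)
        rw [h3, h4]
        rfl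
      · have h3 : e1 (Sum.inl (Sum.inl k)) = Sum.inl (Sum.inl k) :=
          Equiv.swap_apply_of_ne_of_ne (by simpa using hkb) (by simp)
        rw [h3]
        by_cases hkl : k = l
        · subst hkl
          rw [exch_l]
          have h4 : e2 (Sum.inl (Sum.inl k)) = Sum.inr 0 := Equiv.swap_apply_left _ _
          rw [h4]
          rfl
        · have h4 : e2 (Sum.inl (Sum.inl k)) = Sum.inl (Sum.inl k) :=
            Equiv.swap_apply_of_ne_of_ne (by simpa using hkl) (by simp)
          rw [h4, exch_other s σ b l k hkb hkl]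
          rfl
    · fin_cases k
      · change Sum.elim (Sum.elim s ![sb, sbᶜ]) ![sl, slᶜ] (e2 (e1 (Sum.inl (Sum.inr 0)))) = s b
        have h3 : e1 (Sum.inl (Sum.inr 0)) = Sum.inl (Sum.inl b) := Equiv.swap_apply_right _ _
        have h4 : e2 (Sum.inl (Sum.inl b)) = Sum.inl (Sum.inl b) :=
          Equiv.swap_apply_of_ne_of_ne (by simpa using hbl) (by simp)
        rw [h3, h4]
        rfl
      · change Sum.elim (Sum.elim s ![sb, sbᶜ]) ![sl, slᶜ] (e2 (e1 (Sum.inl (Sum.inr 1)))) = sbᶜ
        have h3 : e1 (Sum.inl (Sum.inr 1)) = Sum.inl (Sum.inr 1) :=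
          Equiv.swap_apply_of_ne_of_ne (by simp) (by simp)
        have h4 : e2 (Sum.inl (Sum.inr 1)) = Sum.inl (Sum.inr 1) :=
          Equiv.swap_apply_of_ne_of_ne (by simp) (by simp)
        rw [h3, h4]
        rfl
      · change Sum.elim (Sum.elim s ![sb, sbᶜ]) ![sl, slᶜ] (e2 (e1 (Sum.inr 0))) = s l
        have h3 : e1 (Sum.inr 0) = Sum.inr 0 :=
          Equiv.swap_apply_of_ne_of_ne (by simp) (by simp)
        have h4 : e2 (Sum.inr 0) = Sum.inl (Sum.inl l) := Equiv.swap_apply_right _ _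
        rw [h3, h4]
        rfl
      · change Sum.elim (Sum.elim s ![sb, sbᶜ]) ![sl, slᶜ] (e2 (e1 (Sum.inr 1))) = slᶜ
        have h3 : e1 (Sum.inr 1) = Sum.inr 1 :=
          Equiv.swap_apply_of_ne_of_ne (by simp) (by simp)
        have h4 : e2 (Sum.inr 1) = Sum.inr 1 :=
          Equiv.swap_apply_of_ne_of_ne (by simp) (by simp)
        rw [h3, h4]
        rfl
  have h3 : Alg B j (Sum.elim s ![sb, sbᶜ]) := by
    refine alg_cancel j ?_ hsl h2
    rintro (k | k)
    · exact hs k
    · fin_cases k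
      · exact hsb
      · exact hsb.compl
  exact alg_cancel j hs hsb h3

/-- Two half systems without a common element. -/
theorem compl_of_disjoint {S T : Set (L ≃ₐ[ℚ] L)} (hS : IsHalf S) (hT : IsHalf T)
    (h : S ∩ T = ∅) : T = Sᶜ := by
  ext σ
  constructor
  · intro h1 h2
    have h3 : σ ∈ S ∩ T := ⟨h2, h1⟩
    rw [h] at h3
    exact h3
  · intro h1
    have h2 : cc L * σ ∈ S := by
      by_contra h3
      exact h1 ((hS σ).2 h3)
    have h3 : cc L * σ ∉ T := by
      intro h4
      have h5 : cc L * σ ∈ S ∩ T := ⟨h2, h4⟩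
      rw [h] at h5
      exact h5
    exact (hT σ).2 h3

theorem balanced_rest {s : κ → Set (L ≃ₐ[ℚ] L)} (hbal : Balanced s) (a b : κ) (hab : a ≠ b)
    (h : s b = (s a)ᶜ) : Balanced (fun x : {x : κ // x ≠ a ∧ x ≠ b} => s x.1) := by
  classical
  intro τ
  have h1 := hbal τ
  have h2 : ∑ k, (if τ ∈ s k then (1 : ℤ) else -1) = 0 := by
    convert h1 using 1
  rw [← Equiv.sum_comp (splitTwo a b hab), Fintype.sum_sum_type, Fin.sum_univ_two] at h2
  have h3 : (if τ ∈ s (splitTwo a b hab (Sum.inr 0)) then (1 : ℤ) else -1) +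
      (if τ ∈ s (splitTwo a b hab (Sum.inr 1)) then (1 : ℤ) else -1) = 0 := by
    change (if τ ∈ s a then (1 : ℤ) else -1) + (if τ ∈ s b then (1 : ℤ) else -1) = 0
    rw [h]
    by_cases h4 : τ ∈ s a
    · rw [if_pos h4, if_neg (by simpa using h4)]
      norm_num
    · rw [if_neg h4, if_pos (by simpa using h4)]
      norm_num
  rw [h3, add_zero] at h2
  exact (Finset.sum_congr rfl fun k _ => by congr).trans h2

/-- **Uncrossing.** Every balanced family of half systems. -/
theorem alg_of_balanced (ι : B.E →+* L) (j : L →+* ℂ) (n : ℕ) : ∀ (κ : Type) [Fintype κ] [DecidableEq κ],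
    Fintype.card κ = n → ∀ (s : κ → Set (L ≃ₐ[ℚ] L)), (∀ k, IsHalf (s k)) → Balanced s →
      Alg B j s := by
  classical
  induction n using Nat.strong_induction_on with
  | _ n ih =>
    intro κ _ _ hn s hs hbal
    rcases isEmpty_or_nonempty κ with he | ⟨⟨a⟩⟩
    · exact alg_empty j s
    -- a second index
    have hb : ∃ b, a ≠ b := by
      by_contra hcon
      push Not at hcon
      have h1 := hbal 1
      have h2 : Fintype.card κ = 1 := Fintype.card_eq_one_iff.2 ⟨a, fun x => (hcon x).symm⟩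
      have h3 : (Finset.univ : Finset κ) = {a} := by
        ext x
        simp [(hcon x).symm]
      rw [h3, Finset.sum_singleton] at h1
      by_cases h4 : (1 : L ≃ₐ[ℚ] L) ∈ s a
      · rw [if_pos h4] at h1
        exact absurd h1 (by norm_num)
      · rw [if_neg h4] at h1
        exact absurd h1 (by norm_num)
    obtain ⟨b, hab⟩ := hb
    have key : ∀ m : ℕ, ∀ s : κ → Set (L ≃ₐ[ℚ] L), (∀ k, IsHalf (s k)) → Balanced s →
        (s a ∩ s b).ncard = m → Alg B j s := by
      intro m
      induction m with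
      | zero =>
        intro s hs hbal hm
        have h1 : s a ∩ s b = ∅ := (Set.ncard_eq_zero (Set.toFinite _)).1 hm
        have h2 := compl_of_disjoint (hs a) (hs b) h1
        have hcard := card_split a b hab
        exact alg_split a b hab h2 (ih _ (by omega) _ rfl _ (fun k => hs k.1)
          (balanced_rest hbal a b hab h2))
      | succ m ihm =>
        intro s hs hbal hm
        have h1 : (s a ∩ s b).Nonempty := by
          rw [← Set.ncard_pos (Set.toFinite _)]
          omega
        obtain ⟨σ, hσa, hσb⟩ := h1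
        obtain ⟨l, hla, hlb, hl⟩ := exists_other hbal σ a b hab hσa hσb
        refine alg_of_exch ι j hs σ b l (Ne.symm hlb) hσb hl
          (ihm _ (exch_half hs σ b l) (exch_balanced hs hbal σ b l (Ne.symm hlb) hσb hl) ?_)
        rw [exch_other s σ b l a hab (Ne.symm hla), exch_b]
        have hca : cc L * σ ∉ s a := (hs a σ).1 hσa
        have h2 : s a ∩ toggle σ (s b) = (s a ∩ s b) \ {σ} := by
          ext τ
          rw [Set.mem_inter_iff, mem_toggle, Set.mem_sdiff, Set.mem_inter_iff,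
            Set.mem_singleton_iff]
          constructor
          · rintro ⟨h3, h4 | ⟨h4, h5 | h5⟩⟩
            · exact ⟨⟨h3, h4.1⟩, h4.2.1⟩
            · subst h5
              exact absurd hσb h4
            · subst h5
              exact absurd h3 hca
          · rintro ⟨⟨h3, h4⟩, h5⟩
            exact ⟨h3, Or.inl ⟨h4, h5, fun h6 => hca (h6 ▸ h3)⟩⟩
        rw [h2, Set.ncard_sdiff_singleton_of_mem (show σ ∈ s a ∩ s b from ⟨hσa, hσb⟩), hm]
        rfl
    exact key _ s hs hbal rfl

end

end Pool.Agent.W547.KB
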