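import Pool.Agent.H86.CMLib.W547.KB.Cancel
import Pool.Agent.H86.CMLib.W547.KB.RelTrace

/-!
# The Weil classes on `Y × B` and on products of four abelian varieties
-/

set_option linter.unusedSectionVars false
set_option linter.unusedVariables false

namespace Pool.Agent.W547.KB

open NumberField Pool.Agent.H204R3.CM Equiv Module

noncomputable section

variable {B : CMPair} {L : Type} [Field L] [NumberField L] [IsCMField L] [IsGalois ℚ L]

theorem isHalf_St {X : CMAV} (j : L →+* ℂ) (x : Wt X L) : IsHalf (St j x) := by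
  intro σ
  have h1 : j.comp ((cc L * σ) • x.2) = ComplexEmbedding.conjugate (j.comp (σ • x.2)) := by
    ext a
    change j (cc L (σ (x.2 a))) = _
    rw [emb_cc, ComplexEmbedding.conjugate_coe_eq]
    rfl
  change j.comp (σ • x.2) ∈ (X.factor x.1).Φ ↔ ¬ j.comp ((cc L * σ) • x.2) ∈ (X.factor x.1).Φ
  rw [h1]
  exact (X.factor x.1).isCMType _

/-- The half system of the type induced from `B`. -/
def kap (B : CMPair) (j : L →+* ℂ) (ι : B.E →+* L) : Set (L ≃ₐ[ℚ] L) :=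
  {σ | j.comp (σ • ι) ∈ B.Φ}

theorem isHalf_kap (j : L →+* ℂ) (ι : B.E →+* L) : IsHalf (kap B j ι) :=
  isHalf_St (X := single B) j ⟨(), ι⟩

theorem mem_kap (j : L →+* ℂ) (ι : B.E →+* L) (σ : L ≃ₐ[ℚ] L) :
    σ ∈ kap B j ι ↔ (j.comp (σ : L →+* L)).comp ι ∈ B.Φ := Iff.rfl

theorem typeOf_kap (j : L →+* ℂ) (ι : B.E →+* L) :
    typeOf j (kap B j ι) = {φ | φ.comp ι ∈ B.Φ} := by
  ext φ
  obtain ⟨σ, rfl⟩ := comp_surjective j φ
  change j.comp (σ : L →+* L) ∈ typeOf j (kap B j ι) ↔ _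
  rw [mem_typeOf]
  exact mem_kap j ι σ

section base

variable (j : L →+* ℂ) (ι : B.E →+* L) (r : Fin 4 → Set (L ≃ₐ[ℚ] L)) (hr : ∀ k, IsHalf (r k))

/-- The product `Y × B`. -/
abbrev yb : CMAV :=
  (three L (fun i => typeOf j (r i.castSucc)) (fun i => isCMType_typeOf j (hr _))).prod (single B)

/-- The weights of the Weil class. -/
def ybI : Fin 4 → Wt (yb (B := B) j r hr) L :=
  ![⟨Sum.inl 0, RingHom.id L⟩, ⟨Sum.inl 1, RingHom.id L⟩, ⟨Sum.inl 2, RingHom.id L⟩,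
    ⟨Sum.inr (), ι⟩]

theorem ybI_mem (h3 : r 3 = kap B j ι) (σ : L ≃ₐ[ℚ] L) (h01 : r 0 ∩ r 1 = {σ})
    (h23 : r 2 ∩ r 3 = {cc L * σ}) :
    mono (ybI j ι r hr) ∈ LSp B L (yb (B := B) j r hr) (Fin 4) := by
  refine mono_mem_of_trForm _ fun α => ?_
  refine Gen.weil L ι (fun i => typeOf j (r i.castSucc)) (fun i => isCMType_typeOf j (hr _))
    (j.comp (σ : L →+* L)) ?_ ?_ α _ ?_
  · change typeOf j (r 0) ∩ typeOf j (r 1) = _
    rw [typeOf_inter, h01]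
    unfold typeOf
    rw [Set.image_singleton]
  · change typeOf j (r 2) ∩ _ = _
    rw [← typeOf_kap j ι, ← h3, typeOf_inter, h23]
    unfold typeOf
    rw [Set.image_singleton, comp_cc]
  · intro x t
    rw [trForm_apply, mono_eq_det]
    congr 3

/-- The homomorphism to `Y × B` given by an element of `L`. -/
def toYB (γ : L) : (can j r hr).H1 →ₗ[ℚ] (yb (B := B) j r hr).H1 where
  toFun w := (three L (fun i => typeOf j (r i.castSucc))
    (fun i => isCMType_typeOf j (hr _))).pair (single B) (fun i : Fin 3 => w i.castSucc)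
      (fun _ => rtr ι (γ * w 3))
  map_add' w w' := by
    rw [← pair_add]
    congr 1
    funext _
    change rtr ι (γ * (w 3 + w' 3)) = rtr ι (γ * w 3) + rtr ι (γ * w' 3)
    rw [mul_add, map_add]
  map_smul' a w := by
    rw [RingHom.id_apply, ← pair_smul]
    congr 1
    funext _
    change rtr ι (γ * (a • w 3)) = a • rtr ι (γ * w 3)
    rw [mul_smul_comm, rtr_smul]

theorem isHom_toYB (h3 : r 3 = kap B j ι) (γ : L) :
    IsHom (can j r hr) (yb (B := B) j r hr) (toYB j ι r hr γ) := by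
  classical
  let H3 : (typeOf j (r 3) → ℂ) →ₗ[ℂ] (B.Φ → ℂ) :=
    LinearMap.pi fun ψ => ∑ σ : L ≃ₐ[ℚ] L,
      if h : j.comp (σ • ι) = ψ.1 then
        (j (σ γ)) • (LinearMap.proj (⟨j.comp (σ : L →+* L), by
          rw [mem_typeOf, h3, mem_kap]
          have h4 : (j.comp (σ : L →+* L)).comp ι = ψ.1 := h
          rw [h4]
          exact ψ.2⟩ : typeOf j (r 3))) else 0
  let H : (can j r hr).Tan →ₗ[ℂ] (yb (B := B) j r hr).Tan :=
    LinearMap.pi fun s => match s with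
      | Sum.inl i => LinearMap.proj (R := ℂ) (φ := fun k : Fin 4 => (typeOf j (r k) → ℂ)) i.castSucc
      | Sum.inr _ => H3.comp (LinearMap.proj (R := ℂ) (φ := fun k : Fin 4 => (typeOf j (r k) → ℂ)) 3)
  have key : ∀ (x : L) (ψ : B.Φ), H3 (fun φ => φ.1 x) ψ = ψ.1 (rtr ι (γ * x)) := by
    intro x ψ
    rw [rtr_emb ι j ψ.1 (γ * x), LinearMap.pi_apply, LinearMap.sum_apply]
    refine Finset.sum_congr rfl fun σ _ => ?_
    split_ifs with h
    · rw [LinearMap.smul_apply, smul_eq_mul, LinearMap.proj_apply, map_mul, map_mul]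
      rfl
    · rfl
  refine ⟨H, fun w => ?_⟩
  funext s ψ
  rcases s with i | _
  · rfl
  · exact key (w 3) ψ

include hr in
theorem alg_weilB (h3 : r 3 = kap B j ι) (σ : L ≃ₐ[ℚ] L) (h01 : r 0 ∩ r 1 = {σ})
    (h23 : r 2 ∩ r 3 = {cc L * σ}) : Alg B j r := by
  refine alg_of_can j r hr ?_
  obtain ⟨n, a, b, hab⟩ := exists_rdual ι
  have h0 := ybI_mem j ι r hr h3 σ h01 h23
  have h1 : mono (canI j r hr) = ∑ i, b i • (fun v : Fin 4 → (can j r hr).H1 =>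
      mono (ybI j ι r hr) (fun k => toYB j ι r hr (a i) (v k))) := by
    funext v
    rw [Finset.sum_apply]
    simp only [Pi.smul_apply, smul_eq_mul]
    rw [mono_apply]
    simp only [mono_apply, Finset.mul_sum]
    rw [Finset.sum_comm]
    refine Finset.sum_congr rfl fun τ _ => ?_
    simp only [Fin.prod_univ_four]
    have h2 : ev (v (τ 3)) (canI j r hr 3) = ∑ i, b i * ι (rtr ι (a i * (v (τ 3) 3 : L))) :=
      hab (v (τ 3) 3)
    rw [h2, Finset.mul_sum, Finset.mul_sum]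
    refine Finset.sum_congr rfl fun i _ => ?_
    have h4 : ev (toYB j ι r hr (a i) (v (τ 0))) (ybI j ι r hr 0) = ev (v (τ 0)) (canI j r hr 0) :=
      rfl
    have h5 : ev (toYB j ι r hr (a i) (v (τ 1))) (ybI j ι r hr 1) = ev (v (τ 1)) (canI j r hr 1) :=
      rfl
    have h6 : ev (toYB j ι r hr (a i) (v (τ 2))) (ybI j ι r hr 2) = ev (v (τ 2)) (canI j r hr 2) :=
      rfl
    have h7 : ev (toYB j ι r hr (a i) (v (τ 3))) (ybI j ι r hr 3) =
      ι (rtr ι (a i * (v (τ 3) 3 : L))) := rfl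
    rw [h4, h5, h6, h7]
    ring
  rw [h1]
  exact Submodule.sum_mem _ fun i _ => Submodule.smul_mem _ _
    (LSp.pull (isHom_toYB j ι r hr h3 (a i)) h0)

end base

/-- Exchange `σ` and `c σ`. -/
def toggle (σ : L ≃ₐ[ℚ] L) (S : Set (L ≃ₐ[ℚ] L)) : Set (L ≃ₐ[ℚ] L) :=
  {τ | (τ ∈ S ∧ τ ≠ σ ∧ τ ≠ cc L * σ) ∨ (τ ∉ S ∧ (τ = σ ∨ τ = cc L * σ))}

theorem cc_mul_cc_mul (σ : L ≃ₐ[ℚ] L) : cc L * (cc L * σ) = σ := by
  rw [← mul_assoc, cc_cc, one_mul]

theorem cc_mul_ne (σ : L ≃ₐ[ℚ] L) : cc L * σ ≠ σ := by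
  intro h
  exact cc_ne (mul_right_cancel (b := σ) (by rw [h, one_mul]))

theorem cc_mul_eq_iff (σ τ : L ≃ₐ[ℚ] L) : cc L * τ = σ ↔ τ = cc L * σ := by
  constructor
  · rintro rfl
    rw [cc_mul_cc_mul]
  · rintro rfl
    rw [cc_mul_cc_mul]

theorem mem_toggle (σ τ : L ≃ₐ[ℚ] L) (S : Set (L ≃ₐ[ℚ] L)) :
    τ ∈ toggle σ S ↔ (τ ∈ S ∧ τ ≠ σ ∧ τ ≠ cc L * σ) ∨ (τ ∉ S ∧ (τ = σ ∨ τ = cc L * σ)) :=
  Iff.rfl

theorem IsHalf.toggle {S : Set (L ≃ₐ[ℚ] L)} (hS : IsHalf S) (σ : L ≃ₐ[ℚ] L) :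
    IsHalf (toggle σ S) := by
  intro τ
  have h1 := hS τ
  have h2 : cc L * τ = cc L * σ ↔ τ = σ := mul_right_inj (cc L)
  have h3 := cc_mul_eq_iff σ τ
  rw [mem_toggle, mem_toggle]
  rw [Ne, Ne, Ne, Ne, h2, h3]
  tauto


theorem kap_cc (j : L →+* ℂ) (ι : B.E →+* L) :
    kap B j ((cc L : L →+* L).comp ι) = (kap B j ι)ᶜ := by
  ext σ
  have h1 : σ ∈ kap B j ((cc L : L →+* L).comp ι) ↔ cc L * σ ∈ kap B j ι := by
    rw [cc_comm j]
    exact Iff.rfl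
  rw [h1, Set.mem_compl_iff]
  have h2 := isHalf_kap (B := B) j ι σ
  tauto

/-- The two families of four half systems, one after the other. -/
def merge : Fin 4 ⊕ Fin 4 ≃ (Fin 4 ⊕ Fin 2) ⊕ Fin 2 :=
  Equiv.ofBijective (Sum.elim
    ![Sum.inl (Sum.inl 0), Sum.inl (Sum.inl 1), Sum.inl (Sum.inr 0), Sum.inr 0]
    ![Sum.inl (Sum.inl 2), Sum.inl (Sum.inl 3), Sum.inl (Sum.inr 1), Sum.inr 1]) (by decide)

theorem alg_weil_aux (ι : B.E →+* L) (j : L →+* ℂ) (r : Fin 4 → Set (L ≃ₐ[ℚ] L))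
    (hr : ∀ k, IsHalf (r k)) (σ : L ≃ₐ[ℚ] L) (h01 : r 0 ∩ r 1 = {σ})
    (h23 : r 2 ∩ r 3 = {cc L * σ}) (hσ : cc L * σ ∈ kap B j ι) : Alg B j r := by
  set κ := kap B j ι with hκ
  have hκh : IsHalf κ := isHalf_kap j ι
  have hσ' : σ ∉ κ := fun h => (hκh σ).1 h hσ
  set P := toggle σ κᶜ with hP
  have hPh : IsHalf P := hκh.compl.toggle σ
  have hne := cc_mul_ne σ
  have hP1 : P ∩ κ = {cc L * σ} := by
    ext τ
    rw [Set.mem_inter_iff, hP, mem_toggle, Set.mem_singleton_iff, Set.mem_compl_iff]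
    constructor
    · rintro ⟨h1 | ⟨-, rfl | rfl⟩, h2⟩
      · exact absurd h2 h1.1
      · exact absurd h2 hσ'
      · rfl
    · rintro rfl
      exact ⟨Or.inr ⟨fun h => h hσ, Or.inr rfl⟩, hσ⟩
  have hP2 : Pᶜ ∩ κᶜ = {cc L * (cc L * σ)} := by
    rw [cc_mul_cc_mul]
    ext τ
    rw [Set.mem_inter_iff, Set.mem_compl_iff, hP, mem_toggle, Set.mem_singleton_iff,
      Set.mem_compl_iff]
    constructor
    · rintro ⟨h1, h2⟩
      by_contra h3
      apply h1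
      left
      exact ⟨h2, h3, fun h4 => h2 (h4 ▸ hσ)⟩
    · rintro rfl
      refine ⟨?_, hσ'⟩
      rintro (⟨-, h2, -⟩ | ⟨h2, -⟩)
      · exact h2 rfl
      · exact h2 hσ'
  have hA : Alg B j ![r 0, r 1, P, κ] := by
    refine alg_weilB j ι _ ?_ rfl σ h01 hP1
    intro k
    fin_cases k
    · exact hr 0
    · exact hr 1
    · exact hPh
    · exact hκh
  have hB : Alg B j ![r 2, r 3, Pᶜ, κᶜ] := by
    refine alg_weilB j ((cc L : L →+* L).comp ι) _ ?_ (kap_cc j ι).symm (cc L * σ) h23 hP2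
    intro k
    fin_cases k
    · exact hr 2
    · exact hr 3
    · exact hPh.compl
    · exact hκh.compl
  have h1 : Alg B j (Sum.elim (Sum.elim r ![P, Pᶜ]) ![κ, κᶜ]) := by
    refine alg_reindex merge (alg_sum hA hB) ?_
    rintro (k | k) <;> fin_cases k <;> rfl
  refine alg_cancel j hr hPh (alg_cancel j ?_ hκh h1)
  rintro (k | k)
  · exact hr k
  · fin_cases k
    · exact hPh
    · exact hPh.compl

theorem alg_weil (ι : B.E →+* L) (j : L →+* ℂ) (r : Fin 4 → Set (L ≃ₐ[ℚ] L))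
    (hr : ∀ k, IsHalf (r k)) (σ : L ≃ₐ[ℚ] L) (h01 : r 0 ∩ r 1 = {σ})
    (h23 : r 2 ∩ r 3 = {cc L * σ}) : Alg B j r := by
  by_cases h : cc L * σ ∈ kap B j ι
  · exact alg_weil_aux ι j r hr σ h01 h23 h
  · refine alg_weil_aux ((cc L : L →+* L).comp ι) j r hr σ h01 h23 ?_
    rw [kap_cc]
    exact h

end

end Pool.Agent.W547.KB
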